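import Pool.Agent.MP_574b9b_nt.ab.Spec

/-! The automata step: holes for a regular digit language give few live blocks. -/

set_option autoImplicit false

namespace Pool.Agent.MP_574b9b_nt.AB

namespace Auto

/-- `n` is a leading block of a member of `S`. -/
def LiveP (b : ℕ) (S : Set ℕ) (n : ℕ) : Prop := ∃ r z : ℕ, z < b ^ r ∧ b ^ r * n + z ∈ S

theorem ext {K : Type} (b : ℕ) (hb : 2 ≤ b) (st : ℕ → K)
    (hstep : ∀ n n' d : ℕ, 0 < n → 0 < n' → st n = st n' → d < b →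
      st (b * n + d) = st (b * n' + d)) :
    ∀ r n n' z : ℕ, 0 < n → 0 < n' → st n = st n' → z < b ^ r →
      st (b ^ r * n + z) = st (b ^ r * n' + z) := by
  intro r
  induction r with
  | zero =>
    intro n n' z _ _ h hz
    have : z = 0 := by simpa using hz
    subst this
    simpa using h
  | succ r ih =>
    intro n n' z hn hn' h hz
    have hb0 : 0 < b := by omega
    have hq : z / b < b ^ r := by
      rw [Nat.div_lt_iff_lt_mul hb0]; rwa [pow_succ] at hz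
    have e : ∀ m : ℕ, b ^ (r + 1) * m + z = b * (b ^ r * m + z / b) + z % b := by
      intro m
      have := Nat.div_add_mod z b
      calc b ^ (r + 1) * m + z = b ^ (r + 1) * m + (b * (z / b) + z % b) := by rw [this]
        _ = _ := by ring
    have hp : 0 < b ^ r := pow_pos hb0 r
    rw [e n, e n']
    exact hstep _ _ _ (Nat.add_pos_left (Nat.mul_pos hp hn) _)
      (Nat.add_pos_left (Nat.mul_pos hp hn') _) (ih n n' _ hn hn' h hq) (Nat.mod_lt _ hb0)

theorem unif {K : Type} [Finite K] (st : ℕ → K) (P : ℕ → ℕ → Prop)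
    (h : ∀ n n' r : ℕ, 0 < n → 0 < n' → st n = st n' → P n r → P n' r) :
    ∃ R : ℕ, ∀ n : ℕ, 0 < n → (∃ r, P n r) → ∃ r, r ≤ R ∧ P n r := by
  classical
  have : ∀ k : K, ∃ c : ℕ, ∀ n : ℕ, 0 < n → st n = k → (∃ r, P n r) → P n c := by
    intro k
    by_cases hk : ∃ n r, 0 < n ∧ st n = k ∧ P n r
    · obtain ⟨n, r, hn, hs, hp⟩ := hk
      exact ⟨r, fun n' hn' hs' _ => h n n' r hn hn' (hs.trans hs'.symm) hp⟩
    · exact ⟨0, fun n hn hs ⟨r, hr⟩ => absurd ⟨n, r, hn, hs, hr⟩ hk⟩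
  choose c hc using this
  obtain ⟨R, hR⟩ := (Set.finite_range c).bddAbove
  exact ⟨R, fun n hn he => ⟨c (st n), hR ⟨_, rfl⟩, hc _ n hn rfl he⟩⟩

theorem live_of_ext {b : ℕ} {S : Set ℕ} {n s z : ℕ} (hz : z < b ^ s)
    (h : LiveP b S (b ^ s * n + z)) : LiveP b S n := by
  obtain ⟨r, z', hz', hm⟩ := h
  refine ⟨r + s, b ^ r * z + z', ?_, ?_⟩
  · have : b ^ r * (z + 1) ≤ b ^ r * b ^ s := Nat.mul_le_mul_left _ hz
    rw [pow_add]
    have e : b ^ r * (z + 1) = b ^ r * z + b ^ r := by ring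
    omega
  · have : b ^ (r + s) * n + (b ^ r * z + z') = b ^ r * (b ^ s * n + z) + z' := by ring
    rwa [this]

theorem oneD {K : Type} [Finite K] (b : ℕ) (hb : 2 ≤ b) (S : Set ℕ) (st : ℕ → K)
    (hS : ∀ n n' : ℕ, st n = st n' → n ∈ S → n' ∈ S)
    (hstep : ∀ n n' d : ℕ, 0 < n → 0 < n' → st n = st n' → d < b →
      st (b * n + d) = st (b * n' + d)) (hH : Holes b S) :
    ∃ D : ℕ, ∀ u : ℕ, 0 < u → ∃ z, z < b ^ D ∧ ¬ LiveP b S (b ^ D * u + z) := by
  have hb0 : 0 < b := by omega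
  have hx := ext b hb st hstep
  have pos : ∀ s n z : ℕ, 0 < n → 0 < b ^ s * n + z := fun s n z hn =>
    Nat.add_pos_left (Nat.mul_pos (pow_pos hb0 s) hn) _
  have hL : ∀ n n' : ℕ, 0 < n → 0 < n' → st n = st n' → LiveP b S n → LiveP b S n' := by
    rintro n n' hn hn' h ⟨r, z, hz, hm⟩
    exact ⟨r, z, hz, hS _ _ (hx r n n' z hn hn' h hz) hm⟩
  obtain ⟨R, hR⟩ := unif st (fun n r => ∃ z, z < b ^ r ∧ b ^ r * n + z ∈ S) (by
    rintro n n' r hn hn' h ⟨z, hz, hm⟩
    exact ⟨z, hz, hS _ _ (hx r n n' z hn hn' h hz) hm⟩)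
  obtain ⟨D, hD⟩ := unif st (fun n s => ∃ z, z < b ^ s ∧ ¬ LiveP b S (b ^ s * n + z)) (by
    rintro n n' s hn hn' h ⟨z, hz, hm⟩
    exact ⟨z, hz, fun h' => hm (hL _ _ (pos s n' z hn') (pos s n z hn)
      (hx s n n' z hn hn' h hz).symm h')⟩)
  refine ⟨D, fun u hu => ?_⟩
  obtain ⟨σ, z, hz, hno⟩ := hH u R hu
  have hdead : ¬ LiveP b S (b ^ σ * u + z) := by
    rintro ⟨r, z', hz', hm⟩
    obtain ⟨r', hr', z'', hz'', hm'⟩ := hR _ (pos σ u z hu) ⟨r, z', hz', hm⟩
    exact hno r' z'' hr' hz'' hm'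
  obtain ⟨s, hs, w, hw, hwd⟩ := hD u hu ⟨σ, z, hz, hdead⟩
  obtain ⟨t, rfl⟩ := Nat.exists_eq_add_of_le hs
  refine ⟨b ^ t * w, ?_, fun h => hwd ?_⟩
  · rw [pow_add, mul_comm (b ^ s)]
    exact Nat.mul_lt_mul_of_pos_left hw (pow_pos hb0 t)
  · have e : b ^ (s + t) * u + b ^ t * w = b ^ t * (b ^ s * u + w) + 0 := by ring
    rw [e] at h
    exact live_of_ext (pow_pos hb0 t) h

open Classical in
/-- The live blocks with `p + 1` digits as a finite set. -/
noncomputable def F (b : ℕ) (S : Set ℕ) (p : ℕ) : Finset ℕ :=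
  (Finset.Ico (b ^ p) (b ^ (p + 1))).filter (LiveP b S)

theorem mem_F {b : ℕ} {S : Set ℕ} {p v : ℕ} :
    v ∈ F b S p ↔ b ^ p ≤ v ∧ v < b ^ (p + 1) ∧ LiveP b S v := by
  simp [F, and_assoc]

theorem ncard_live (b : ℕ) (S : Set ℕ) (p : ℕ) : (Live b S p).ncard = (F b S p).card := by
  rw [← Set.ncard_coe_finset]
  congr 1
  ext v
  rw [Finset.mem_coe, mem_F]
  rfl

open Classical in
theorem cnt (b : ℕ) (hb : 2 ≤ b) (S : Set ℕ) (p r c : ℕ)
    (h : ∀ u : ℕ, 0 < u →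
      ((Finset.range (b ^ r)).filter (fun z => LiveP b S (b ^ r * u + z))).card ≤ c) :
    (F b S (p + r)).card ≤ (F b S p).card * c := by
  have hb0 : 0 < b := by omega
  have hp : 0 < b ^ r := pow_pos hb0 r
  have hsub : F b S (p + r) ⊆ (F b S p).biUnion (fun u =>
      ((Finset.range (b ^ r)).filter (fun z => LiveP b S (b ^ r * u + z))).image
        (fun z => b ^ r * u + z)) := by
    intro v hv
    obtain ⟨h1, h2, h3⟩ := mem_F.1 hv
    have e : b ^ r * (v / b ^ r) + v % b ^ r = v := Nat.div_add_mod v (b ^ r)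
    have hm : v % b ^ r < b ^ r := Nat.mod_lt _ hp
    rw [Finset.mem_biUnion]
    refine ⟨v / b ^ r, mem_F.2 ⟨?_, ?_, ?_⟩, Finset.mem_image.2 ⟨v % b ^ r, ?_, e⟩⟩
    · rw [Nat.le_div_iff_mul_le hp, ← pow_add]; exact h1
    · rw [Nat.div_lt_iff_lt_mul hp, ← pow_add]
      have : p + 1 + r = p + r + 1 := by ring
      rwa [this]
    · exact live_of_ext hm (by rwa [e])
    · rw [Finset.mem_filter, Finset.mem_range]
      exact ⟨hm, by rwa [e]⟩
  refine (Finset.card_le_card hsub).trans (Finset.card_biUnion_le_card_mul _ _ _ ?_)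
  intro u hu
  exact Finset.card_image_le.trans
    (h u (lt_of_lt_of_le (pow_pos hb0 p) (mem_F.1 hu).1))

theorem thin_of (b : ℕ) (hb : 2 ≤ b) (S : Set ℕ) (D : ℕ)
    (hD : ∀ u : ℕ, 0 < u → ∃ z, z < b ^ D ∧ ¬ LiveP b S (b ^ D * u + z)) : Thin b S := by
  classical
  have hb0 : 0 < b := by omega
  have hbR : (0 : ℝ) < b := by exact_mod_cast hb0
  have h1 : ∀ p r : ℕ, (F b S (p + r)).card ≤ (F b S p).card * b ^ r := fun p r =>
    cnt b hb S p r _ fun u _ => (Finset.card_filter_le _ _).trans (by simp)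
  have h2 : ∀ p : ℕ, (F b S (p + D)).card ≤ (F b S p).card * (b ^ D - 1) := fun p =>
    cnt b hb S p D _ fun u hu => by
      obtain ⟨z, hz, hd⟩ := hD u hu
      have := Finset.card_lt_card (Finset.filter_ssubset.2
        (⟨z, Finset.mem_range.2 hz, hd⟩ : ∃ x ∈ Finset.range (b ^ D),
          ¬ LiveP b S (b ^ D * u + x)))
      rw [Finset.card_range] at this
      exact Nat.le_sub_one_of_lt (by convert this)
  have hD1 : 1 ≤ b ^ D := pow_pos hb0 D
  have hDR : (0 : ℝ) < (b : ℝ) ^ D := pow_pos hbR D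
  set θ : ℝ := ((b : ℝ) ^ D - 1) / (b : ℝ) ^ D with hθ
  have hθ0 : 0 ≤ θ := by
    apply div_nonneg _ hDR.le
    have : (1 : ℝ) ≤ (b : ℝ) ^ D := by exact_mod_cast hD1
    linarith
  have hθ1 : θ < 1 := by rw [hθ, div_lt_one hDR]; linarith
  have h3 : ∀ k : ℕ, ((F b S (k * D)).card : ℝ) ≤
      ((F b S 0).card : ℝ) * θ ^ k * (b : ℝ) ^ (k * D) := by
    intro k
    induction k with
    | zero => simp
    | succ k ih =>
      have a := h2 (k * D)
      have a' : ((F b S (k * D + D)).card : ℝ) ≤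
          ((F b S (k * D)).card : ℝ) * ((b : ℝ) ^ D - 1) := by
        have : (((b ^ D - 1 : ℕ)) : ℝ) = (b : ℝ) ^ D - 1 := by
          rw [Nat.cast_sub hD1]; simp
        rw [← this]; exact_mod_cast a
      have e : (b : ℝ) ^ D - 1 = θ * (b : ℝ) ^ D := by rw [hθ]; field_simp
      have e2 : (k + 1) * D = k * D + D := by ring
      rw [e2]
      calc _ ≤ _ := a'
        _ ≤ ((F b S 0).card : ℝ) * θ ^ k * (b : ℝ) ^ (k * D) * ((b : ℝ) ^ D - 1) := by
          apply mul_le_mul_of_nonneg_right ih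
          rw [e]; positivity
        _ = _ := by rw [e, pow_add, pow_succ]; ring
  intro ε hε
  have ht : Filter.Tendsto (fun k : ℕ => ((F b S 0).card : ℝ) * θ ^ k) Filter.atTop (nhds 0) := by
    simpa using (tendsto_pow_atTop_nhds_zero_of_lt_one hθ0 hθ1).const_mul ((F b S 0).card : ℝ)
  obtain ⟨k, hk⟩ := (ht.eventually (gt_mem_nhds hε)).exists
  refine ⟨k * D, fun p hp => ?_⟩
  obtain ⟨r, rfl⟩ := Nat.exists_eq_add_of_le hp
  rw [ncard_live]
  have a : ((F b S (k * D + r)).card : ℝ) ≤ ((F b S (k * D)).card : ℝ) * (b : ℝ) ^ r := by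
    exact_mod_cast h1 (k * D) r
  calc _ ≤ _ := a
    _ ≤ ((F b S 0).card : ℝ) * θ ^ k * (b : ℝ) ^ (k * D) * (b : ℝ) ^ r :=
      mul_le_mul_of_nonneg_right (h3 k) (by positivity)
    _ ≤ ε * (b : ℝ) ^ (k * D) * (b : ℝ) ^ r := by gcongr
    _ = _ := by rw [pow_add]; ring

end Auto

theorem auto : AutoStmt := by
  rintro b L hb ⟨Q, hQ, M, rfl⟩ hH
  obtain ⟨D, hD⟩ := Auto.oneD b hb {s | Nat.digits b s ∈ M.accepts}
    (fun n => ({q | M.evalFrom q (Nat.digits b n) ∈ M.accept} : Set Q))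
    (by
      intro n n' h hn
      have := Set.ext_iff.1 h M.start
      exact this.1 hn)
    (by
      intro n n' d hn hn' h hd
      ext q
      have e : ∀ m : ℕ, 0 < m → Nat.digits b (b * m + d) = d :: Nat.digits b m := by
        intro m hm
        rw [add_comm]
        exact Nat.digits_add b (by omega) d m hd (Or.inr hm.ne')
      simp only [Set.mem_ofPred_eq, e n hn, e n' hn', DFA.evalFrom_cons]
      exact Set.ext_iff.1 h (M.step q d)) hH
  exact Auto.thin_of b hb _ D hD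

end Pool.Agent.MP_574b9b_nt.AB
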