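import Pool.Agent.MP_574b9b_nt.ab.Pos

/-! An unbounded trajectory visits a thin set with frequency zero among its odd terms. -/

set_option autoImplicit false

namespace Pool.Agent.MP_574b9b_nt.AB

open Filter Topology

theorem sep (W₀ : ℕ) : ∃ W : ℕ, W₀ ≤ W ∧ ∀ A H : ℤ, 0 < A → A < W →
    1 / (10 * (W : ℝ)) ≤ |A * Real.log 7 - H * Real.log 2| := by
  have l2 := Real.log_two_gt_d9
  obtain ⟨ε, hε, ε0⟩ := (((irr.eventually_forall_le_dist_cast_rat_of_den_le (2 * W₀)).filter_mono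
    nhdsWithin_le_nhds).and (self_mem_nhdsWithin (s := Set.Ioi (0 : ℝ)))).exists
  obtain ⟨n, hn⟩ := exists_nat_one_div_lt (show 0 < ε from ε0)
  obtain ⟨q, h1, h2⟩ := Real.exists_rat_abs_sub_le_and_den_le (Real.log 7 / Real.log 2)
    (Nat.succ_pos n)
  have d1 : (1 : ℝ) ≤ q.den := by exact_mod_cast q.pos
  have hq : 2 * W₀ < q.den := by
    by_contra k
    have a := hε q (by omega)
    rw [Real.dist_eq] at a
    refine absurd (a.trans (h1.trans ?_)) (not_le.2 hn)
    push_cast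
    exact one_div_le_one_div_of_le (by positivity) (by nlinarith [n.cast_nonneg (α := ℝ)])
  refine ⟨q.den / 2, by omega, fun A H A0 AW => ?_⟩
  have h3 : |Real.log 7 / Real.log 2 - q| ≤ 1 / (q.den * q.den) := by
    refine h1.trans (one_div_le_one_div_of_le (by positivity) ?_)
    have : (q.den : ℝ) ≤ n.succ := by exact_mod_cast h2
    nlinarith
  have ne : A * q.num - H * q.den ≠ 0 := by
    intro e
    have a : (q.den : ℤ) ∣ A * q.num := ⟨H, by linarith⟩
    have c : IsCoprime (q.den : ℤ) q.num := by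
      rw [Int.isCoprime_iff_gcd_eq_one, Int.gcd_comm]
      exact q.reduced
    have := Int.le_of_dvd A0 (c.dvd_of_dvd_mul_right a)
    omega
  have h4 : (1 : ℝ) ≤ |(A : ℝ) * q.num - H * q.den| := by exact_mod_cast Int.one_le_abs ne
  have h5 : 2 * (A : ℝ) ≤ q.den := by exact_mod_cast (show 2 * A ≤ (q.den : ℤ) by omega)
  have h6 : (q.den : ℝ) ≤ 3 * (q.den / 2 : ℕ) := by
    exact_mod_cast (show q.den ≤ 3 * (q.den / 2) by omega)
  have A1 : (0 : ℝ) < A := by exact_mod_cast A0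
  generalize ((q.den / 2 : ℕ) : ℝ) = W at h6
  have e : (A : ℝ) * q.num - H * q.den = q.den / Real.log 2 * (A * Real.log 7 - H * Real.log 2) -
      A * q.den * (Real.log 7 / Real.log 2 - q) := by
    rw [Rat.cast_def]
    field_simp
    ring
  have h7 : |(A : ℝ) * q.den * (Real.log 7 / Real.log 2 - q)| ≤ 1 / 2 := by
    rw [abs_mul, abs_of_pos (by positivity)]
    refine (mul_le_mul_of_nonneg_left h3 (by positivity)).trans ?_
    rw [mul_one_div, div_le_iff₀ (by positivity)]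
    nlinarith
  have h8 := abs_sub ((q.den : ℝ) / Real.log 2 * (A * Real.log 7 - H * Real.log 2))
    (A * q.den * (Real.log 7 / Real.log 2 - q))
  rw [← e, abs_mul, abs_of_pos (show (0 : ℝ) < q.den / Real.log 2 by positivity)] at h8
  have h9 : (q.den : ℝ) / Real.log 2 ≤ 5 * W := by
    rw [div_le_iff₀ (by positivity)]
    nlinarith
  have := mul_le_mul_of_nonneg_right h9 (abs_nonneg (A * Real.log 7 - H * Real.log 2))
  rw [div_le_iff₀ (by linarith)]
  linarith

theorem pair {i j W : ℕ} (hij : 0 < i + j) {a h c : ℤ} (a1 : 0 < a) (ah : a ≤ h)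
    (hW : i * a + j * h < W) (hs : ∀ A H : ℤ, 0 < A → A < W →
      1 / (10 * (W : ℝ)) ≤ |A * Real.log 7 - H * Real.log 2|) :
    1 / (10 * (W : ℝ)) ≤ |a * Real.log 7 - h * Real.log 2 - c * Real.log (2 ^ i * 7 ^ j)| := by
  have l2 := Real.log_two_gt_d9
  have l7 : Real.log 2 ≤ Real.log 7 := Real.log_le_log (by norm_num) (by norm_num)
  have ij : (1 : ℤ) ≤ i + j := by omega
  have i0 : (0 : ℤ) ≤ i := by omega
  have j0 : (0 : ℤ) ≤ j := by omega
  have n0 : 0 < i * a + j * h := by nlinarith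
  have W1 : (1 : ℝ) ≤ W := by exact_mod_cast (show (1 : ℤ) ≤ W by omega)
  have w : 1 / (10 * (W : ℝ)) ≤ 1 / 10 := one_div_le_one_div_of_le (by norm_num) (by linarith)
  rw [Real.log_mul (by positivity) (by positivity), Real.log_pow, Real.log_pow,
    show a * Real.log 7 - h * Real.log 2 - c * (i * Real.log 2 + j * Real.log 7) =
      (a - c * j : ℤ) * Real.log 7 - (h + c * i : ℤ) * Real.log 2 by push_cast; ring]
  have e : i * (a - c * j) + j * (h + c * i) = i * a + j * h := by ring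
  generalize a - c * j = A at e
  generalize h + c * i = H at e
  by_cases k1 : A ≤ 0
  · have k : 1 ≤ H := by
      by_contra k
      nlinarith
    have k1' : (A : ℝ) ≤ 0 := by exact_mod_cast k1
    have k' : (1 : ℝ) ≤ H := by exact_mod_cast k
    exact le_abs.2 (Or.inr (by nlinarith))
  by_cases k2 : A < W
  · exact hs A H (by omega) k2
  · have k : H + 1 ≤ A := by
      by_contra k
      have : (W : ℤ) ≤ H := by omega
      have : (W : ℤ) ≤ A := by omega
      nlinarith
    have k1' : (0 : ℝ) ≤ A := by exact_mod_cast (show 0 ≤ A by omega)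
    have k' : (H : ℝ) + 1 ≤ A := by exact_mod_cast k
    exact le_abs.2 (Or.inl (by nlinarith))

/-- Number of odd terms before time `K`. -/
def oc (n K : ℕ) : ℕ := Nat.count (fun k => Odd (g^[k] n)) K

/-- Number of even terms before time `K`. -/
def ec (n K : ℕ) : ℕ := Nat.count (fun k => ¬Odd (g^[k] n)) K

theorem step (n k : ℕ) :
    (Odd (g^[k] n) ∧ g^[k + 1] n = 7 * g^[k] n + 1 ∧ oc n (k + 1) = oc n k + 1 ∧
      ec n (k + 1) = ec n k) ∨
    (¬Odd (g^[k] n) ∧ g^[k] n = 2 * g^[k + 1] n ∧ oc n (k + 1) = oc n k ∧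
      ec n (k + 1) = ec n k + 1) := by
  rw [Function.iterate_succ_apply', oc, oc, ec, ec, Nat.count_succ, Nat.count_succ]
  by_cases h : Odd (g^[k] n)
  · refine Or.inl ⟨h, ?_, by simp [h], by simp [h]⟩
    rw [Nat.odd_iff] at h
    generalize g^[k] n = x at h
    unfold g
    split_ifs <;> omega
  · refine Or.inr ⟨h, ?_, by simp [h], by simp [h]⟩
    rw [Nat.odd_iff] at h
    generalize g^[k] n = x at h
    unfold g
    split_ifs <;> omega

theorem total (n k : ℕ) : oc n k + ec n k = k ∧ g^[k] n * 2 ^ ec n k ≤ n * 8 ^ oc n k := by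
  induction k with
  | zero => simp [oc, ec]
  | succ k ih =>
    rcases step n k with ⟨h, h1, h2, h3⟩ | ⟨_, h1, h2, h3⟩
    · refine ⟨by omega, ?_⟩
      rw [h1, h2, h3, pow_succ]
      have := Nat.mul_le_mul_right (2 ^ ec n k) (show 7 * g^[k] n + 1 ≤ 8 * g^[k] n by
        have := h.pos
        omega)
      nlinarith [ih.2]
    · refine ⟨by omega, ?_⟩
      have := ih.2
      rw [h1] at this
      rw [h2, h3, pow_succ]
      linarith

theorem alt (n k t : ℕ) : oc n (k + t) + ec n k ≤ ec n (k + t) + oc n k + 1 ∧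
    (Odd (g^[k + t] n) → oc n (k + t) + ec n k ≤ ec n (k + t) + oc n k) := by
  induction t with
  | zero => exact ⟨by simp only [Nat.add_zero]; omega, fun _ => by simp only [Nat.add_zero]; omega⟩
  | succ t ih =>
    rw [← Nat.add_assoc]
    rcases step n (k + t) with ⟨h, h1, h2, h3⟩ | ⟨_, h1, h2, h3⟩
    · have := ih.2 h
      refine ⟨by omega, fun k => ?_⟩
      rw [Nat.odd_iff] at h k
      omega
    · exact ⟨by omega, fun _ => by omega⟩

theorem drift {n k : ℕ} {X : ℝ} (X0 : 0 < X) (hX : ∀ s, k ≤ s → X ≤ (g^[s] n : ℕ)) (t : ℕ) :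
    ∃ δ : ℝ, 0 ≤ δ ∧ δ ≤ ((oc n (k + t) : ℝ) - oc n k) / X ∧
      Real.log (g^[k + t] n : ℕ) - Real.log (g^[k] n : ℕ) = ((oc n (k + t) : ℝ) - oc n k) *
        Real.log 7 - ((ec n (k + t) : ℝ) - ec n k) * Real.log 2 + δ := by
  induction t with
  | zero => exact ⟨0, le_rfl, by simp, by simp⟩
  | succ t ih =>
    obtain ⟨δ, d0, d1, d2⟩ := ih
    rw [← Nat.add_assoc]
    have x1 := hX (k + t) (by omega)
    have x2 := hX (k + t + 1) (by omega)
    rcases step n (k + t) with ⟨_, h1, h2, h3⟩ | ⟨_, h1, h2, h3⟩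
    · rw [h1, h2, h3]
      generalize ((g^[k + t] n : ℕ)) = y at *
      have y0 : (0 : ℝ) < y := X0.trans_le x1
      have e : ((7 * y + 1 : ℕ) : ℝ) = 7 * y * (1 + 1 / (7 * y)) := by
        push_cast
        field_simp
      have p : (0 : ℝ) < 1 / (7 * y) := by positivity
      have b1 := Real.log_le_sub_one_of_pos (show (0 : ℝ) < 1 + 1 / (7 * y) by positivity)
      have b2 : 1 / (7 * (y : ℝ)) ≤ 1 / X := one_div_le_one_div_of_le X0 (by linarith)
      refine ⟨δ + Real.log (1 + 1 / (7 * y)), add_nonneg d0 (Real.log_nonneg (by linarith)), ?_, ?_⟩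
      · push_cast
        rw [add_sub_right_comm, add_div]
        linarith
      · rw [e, Real.log_mul (by positivity) (by positivity),
          Real.log_mul (by positivity) (by positivity)]
        push_cast
        linarith
    · rw [h2, h3]
      rw [h1] at d2
      generalize ((g^[k + t + 1] n : ℕ)) = y at *
      have y0 : (0 : ℝ) < y := X0.trans_le x2
      refine ⟨δ, d0, d1, ?_⟩
      rw [Nat.cast_mul, Real.log_mul (by positivity) (by positivity)] at d2
      push_cast at d2 ⊢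
      linarith

theorem grow {n : ℕ} (h : ∀ M, ∃ k, M < g^[k] n) : Tendsto (fun k => g^[k] n) atTop atTop := by
  refine Function.Injective.nat_tendsto_atTop fun k l e => ?_
  wlog kl : k < l generalizing k l
  · rcases Nat.eq_or_lt_of_not_lt kl with a | a
    exacts [a, (this l k e.symm a).symm]
  have a : ∀ s, g^[s] n ≤ (Finset.range l).sup fun k => g^[k] n := by
    intro s
    induction s using Nat.strong_induction_on with
    | _ s ih =>
      rcases Nat.lt_or_ge s l with c | c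
      · exact Finset.le_sup (f := fun k => g^[k] n) (Finset.mem_range.2 c)
      · obtain ⟨c, rfl⟩ := Nat.exists_eq_add_of_le' c
        rw [Function.iterate_add_apply, ← e, ← Function.iterate_add_apply]
        exact ih _ (by omega)
  obtain ⟨s, hs⟩ := h ((Finset.range l).sup fun k => g^[k] n)
  exact absurd (a s) (not_le.2 hs)

theorem block {b p x : ℕ} (hb : 1 < b) (hx : b ^ p ≤ x) : ∃ v r z : ℕ, b ^ p ≤ v ∧
    v < b ^ (p + 1) ∧ z < b ^ r ∧ b ^ r * v + z = x := by
  have b0 : 0 < b := by omega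
  obtain ⟨r, hr⟩ := Nat.exists_eq_add_of_le (Nat.le_log_of_pow_le hb hx)
  have h1 := Nat.pow_log_le_self b (show x ≠ 0 by have := Nat.pow_pos (n := p) b0; omega)
  have h2 := Nat.lt_pow_succ_log_self hb x
  rw [hr] at h1 h2
  refine ⟨x / b ^ r, r, x % b ^ r, ?_, ?_, Nat.mod_lt _ (Nat.pow_pos b0), Nat.div_add_mod _ _⟩
  · rwa [Nat.le_div_iff_mul_le (Nat.pow_pos b0), ← pow_add]
  · rwa [Nat.div_lt_iff_lt_mul (Nat.pow_pos b0), ← pow_add, Nat.add_right_comm]

theorem blog {b v r z : ℕ} (hb : 0 < b) (hv : 0 < v) (hz : z < b ^ r) : ∃ θ : ℝ, 0 ≤ θ ∧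
    θ ≤ 1 / v ∧ Real.log (b ^ r * v + z : ℕ) = r * Real.log b + Real.log v + θ := by
  have v0 : (0 : ℝ) < v := by exact_mod_cast hv
  have b0 : (0 : ℝ) < b ^ r := by positivity
  have z1 : (z : ℝ) ≤ b ^ r := by exact_mod_cast hz.le
  have p : (0 : ℝ) ≤ z / (b ^ r * v) := by positivity
  have b1 := Real.log_le_sub_one_of_pos (show (0 : ℝ) < 1 + z / (b ^ r * v) by positivity)
  refine ⟨Real.log (1 + z / (b ^ r * v)), Real.log_nonneg (by linarith), ?_, ?_⟩
  · have : (z : ℝ) / (b ^ r * v) ≤ 1 / v := by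
      rw [div_le_div_iff₀ (by positivity) v0]
      nlinarith
    linarith
  · rw [← Real.log_pow, ← Real.log_mul b0.ne' v0.ne', ← Real.log_mul (by positivity) (by positivity)]
    congr 1
    push_cast
    field_simp

theorem count {i j n : ℕ} (hij : 0 < i + j) {S : Set ℕ} (hS : Thin (2 ^ i * 7 ^ j) S)
    (h : ∀ M, ∃ k, M < g^[k] n) {ε : ℝ} (ε0 : 0 < ε) : ∃ C : ℝ, ∀ K : ℕ,
      (Set.ncard {k | k < K ∧ Odd (g^[k] n) ∧ g^[k] n ∈ S} : ℝ) ≤ C + ε * oc n K := by
  obtain ⟨b, hb⟩ : ∃ b, b = 2 ^ i * 7 ^ j := ⟨_, rfl⟩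
  have b1 : 1 < b := by
    have := Nat.lt_two_pow_self (n := i + j)
    have := Nat.mul_le_mul_left (2 ^ i) (Nat.pow_le_pow_left (show 2 ≤ 7 by norm_num) j)
    rw [← pow_add] at this
    omega
  have hb' : ((2 : ℝ) ^ i * 7 ^ j) = b := by rw [hb]; push_cast; rfl
  rw [← hb] at hS
  have b0 : (0 : ℝ) < b := by exact_mod_cast b1.le
  obtain ⟨η, hη⟩ : ∃ η : ℝ, η = ε / (i + 3 * j + 1) := ⟨_, rfl⟩
  have η0 : 0 < η := by rw [hη]; positivity
  obtain ⟨p₀, hp⟩ := hS (η / (40 * b)) (by positivity)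
  obtain ⟨W, W0, hW⟩ := sep (b ^ p₀)
  have W1 : 0 < W := (Nat.pow_pos b1.le).trans_le W0
  have W2 : (0 : ℝ) < W := by exact_mod_cast W1
  obtain ⟨p, p1, p2, p3⟩ : ∃ p, p₀ ≤ p ∧ 40 * W < b ^ p ∧ b ^ p ≤ 40 * W * b :=
    ⟨Nat.log b (40 * W) + 1, (Nat.le_log_of_pow_le b1 (by omega)).trans (Nat.le_succ _),
      Nat.lt_pow_succ_log_self b1 _,
      Nat.mul_le_mul_right b (Nat.pow_log_le_self b (by omega))⟩
  have hV : ((Live b S p).ncard : ℝ) ≤ η * W := by
    refine (hp p p1).trans ?_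
    have : (b : ℝ) ^ p ≤ 40 * W * b := by exact_mod_cast p3
    rw [div_mul_eq_mul_div, div_le_iff₀ (by positivity)]
    nlinarith
  obtain ⟨k₀, hk⟩ := eventually_atTop.1 ((grow h).eventually_ge_atTop (b ^ p + 40 * W * W))
  have ch : ∀ k, ∃ v r z : ℕ, k₀ ≤ k → b ^ p ≤ v ∧ v < b ^ (p + 1) ∧ z < b ^ r ∧
      b ^ r * v + z = g^[k] n := fun k => by
    by_cases c : k₀ ≤ k
    · obtain ⟨v, r, z, a⟩ := block b1 (le_trans (Nat.le_add_right _ _) (hk k c))
      exact ⟨v, r, z, fun _ => a⟩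
    · exact ⟨0, 0, 0, fun a => absurd a c⟩
  choose v r z hv using ch
  obtain ⟨ν, hν⟩ : ∃ ν : ℕ → ℕ, ∀ k, ν k = i * oc n k + j * ec n k := ⟨_, fun _ => rfl⟩
  have key : ∀ k l, k₀ ≤ k → k < l → Odd (g^[k] n) → Odd (g^[l] n) → ν k / W = ν l / W →
      v k = v l → False := by
    intro k l c kl ok ol e1 e2
    obtain ⟨t, rfl⟩ := Nat.exists_eq_add_of_le kl.le
    have a1 : oc n k + 1 ≤ oc n (k + t) := by
      have : oc n (k + 1) ≤ oc n (k + t) := Nat.count_monotone _ (by omega)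
      rcases step n k with ⟨_, _, h2, _⟩ | ⟨h1, _⟩
      exacts [by omega, absurd ok h1]
    have a2 := (alt n k t).2 ol
    have a3 : ν (k + t) < ν k + W := by
      have := Nat.div_add_mod (ν k) W
      have := Nat.div_add_mod (ν (k + t)) W
      have := Nat.mod_lt (ν (k + t)) W1
      rw [← e1] at *
      omega
    rw [hν, hν] at a3
    have a4 := pair (a := (oc n (k + t) : ℤ) - oc n k) (h := (ec n (k + t) : ℤ) - ec n k)
      (c := (r (k + t) : ℤ) - r k) hij (by omega) (by omega) (by zify at a3; linarith) hW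
    have a5 : ((oc n (k + t) : ℝ) - oc n k) ≤ W := by
      have b2 : (oc n (k + t) : ℤ) - oc n k ≤ W := by
        zify at a1 a2 a3
        have : (1 : ℤ) ≤ i + j := by omega
        have : (0 : ℤ) ≤ j := by omega
        nlinarith
      exact_mod_cast b2
    obtain ⟨δ, d0, d1, d2⟩ := drift (n := n) (k := k) (X := 40 * W * W) (by positivity)
      (fun s hs => by exact_mod_cast le_trans (Nat.le_add_left _ _) (hk s (by omega))) t
    obtain ⟨u1, -, u2, u3⟩ := hv k c
    obtain ⟨-, -, u4, u5⟩ := hv (k + t) (by omega)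
    obtain ⟨θ, t0, t1, t2⟩ := blog b1.le (show 0 < v k by omega) u2
    rw [← e2] at u5
    obtain ⟨θ', t3, t4, t5⟩ := blog b1.le (show 0 < v k by omega) u4
    rw [u3] at t2
    rw [u5] at t5
    have c1 : 1 / (v k : ℝ) ≤ 1 / (40 * W) := one_div_le_one_div_of_le (by positivity)
      (by exact_mod_cast p2.le.trans u1)
    have c2 : δ ≤ 1 / (40 * W) := by
      refine d1.trans ?_
      rw [div_le_div_iff₀ (by positivity) (by positivity)]
      nlinarith
    have c3 : 1 / (10 * (W : ℝ)) = 4 * (1 / (40 * W)) := by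
      field_simp
      norm_num
    have c4 : (0 : ℝ) < 1 / (40 * W) := by positivity
    rw [hb', c3] at a4
    push_cast at a4
    rcases le_abs.1 a4 with a | a <;> linarith
  have n0 : ∀ k, 0 < g^[k] n := fun k => by
    by_contra a
    obtain ⟨s, hs⟩ := eventually_atTop.1 ((grow h).eventually_ge_atTop 1)
    have := hs (s + k) (by omega)
    rw [Function.iterate_add_apply, show g^[k] n = 0 by omega,
      Function.iterate_fixed (by decide)] at this
    omega
  refine ⟨k₀ + η * (j * n + W), fun K => ?_⟩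
  have fin : (Live b S p).Finite := (Set.finite_Iio _).subset fun _ a => a.2.1
  have s1 : Set.ncard {k | k < K ∧ Odd (g^[k] n) ∧ g^[k] n ∈ S} ≤
      k₀ + (ν K / W + 1) * (Live b S p).ncard := by
    have s2 : Set.ncard {k | k₀ ≤ k ∧ k < K ∧ Odd (g^[k] n) ∧ g^[k] n ∈ S} ≤
        (Set.Iio (ν K / W + 1) ×ˢ Live b S p).ncard := by
      refine Set.ncard_le_ncard_of_injOn (fun k => (ν k / W, v k)) ?_ ?_
        ((Set.finite_Iio _).prod fin)
      · rintro k ⟨c, kK, -, m⟩
        obtain ⟨u1, u2, u3, u4⟩ := hv k c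
        refine ⟨Nat.lt_succ_of_le (Nat.div_le_div_right ?_), u1, u2, r k, z k, u3, u4 ▸ m⟩
        rw [hν, hν]
        exact Nat.add_le_add (Nat.mul_le_mul_left _ (Nat.count_monotone _ kK.le))
          (Nat.mul_le_mul_left _ (Nat.count_monotone _ kK.le))
      · rintro k ⟨c, -, o, -⟩ l ⟨c', -, o', -⟩ e
        obtain ⟨e1, e2⟩ := Prod.mk.inj e
        rcases Nat.lt_trichotomy k l with a | a | a
        exacts [(key k l c a o o' e1 e2).elim, a, (key l k c' a o' o e1.symm e2.symm).elim]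
    rw [Set.ncard_prod, Set.ncard_Iio_nat] at s2
    refine le_trans (Set.ncard_le_ncard (t := Set.Iio k₀ ∪
      {k | k₀ ≤ k ∧ k < K ∧ Odd (g^[k] n) ∧ g^[k] n ∈ S}) (fun k a => ?_)
      ((Set.finite_Iio _).union ((Set.finite_Iio K).subset fun _ a => a.2.1)))
      ((Set.ncard_union_le _ _).trans ?_)
    · exact (Nat.lt_or_ge k k₀).imp id fun c => ⟨c, a⟩
    · rw [Set.ncard_Iio_nat]
      omega
  have s3 : ec n K ≤ n + 3 * oc n K := by
    have a := (total n K).2
    have a1 := Nat.mul_le_mul_right (2 ^ ec n K) (n0 K)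
    have a2 := Nat.mul_le_mul_right (8 ^ oc n K) (Nat.lt_two_pow_self (n := n)).le
    rw [show 8 = 2 ^ 3 by norm_num, ← pow_mul] at a a2
    rw [← pow_add] at a2
    exact (Nat.pow_le_pow_iff_right (show 1 < 2 by norm_num)).1 (by omega)
  have s4 : (ν K / W + 1) * W ≤ (i + 3 * j + 1) * oc n K + (j * n + W) := by
    have := Nat.div_mul_le_self (ν K) W
    have := Nat.mul_le_mul_left j s3
    have := hν K
    nlinarith
  have s5 : ((ν K / W + 1 : ℕ) : ℝ) * W ≤ (i + 3 * j + 1) * oc n K + (j * n + W) := by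
    exact_mod_cast s4
  have s6 : (Set.ncard {k | k < K ∧ Odd (g^[k] n) ∧ g^[k] n ∈ S} : ℝ) ≤
      k₀ + ((ν K / W + 1 : ℕ) : ℝ) * (Live b S p).ncard := by exact_mod_cast s1
  have s7 : ε = η * (i + 3 * j + 1) := by
    rw [hη]
    field_simp
  have s8 := mul_le_mul_of_nonneg_left hV (Nat.cast_nonneg (α := ℝ) (ν K / W + 1))
  have s9 := mul_le_mul_of_nonneg_left s5 η0.le
  rw [s7]
  nlinarith

theorem freq {i j n : ℕ} (hij : 0 < i + j) {S : Set ℕ} (hS : Thin (2 ^ i * 7 ^ j) S)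
    (h : ∀ M, ∃ k, M < g^[k] n) : Tendsto (fun K : ℕ =>
      (Set.ncard {k | k < K ∧ Odd (g^[k] n) ∧ g^[k] n ∈ S} : ℝ) /
        Set.ncard {k | k < K ∧ Odd (g^[k] n)}) atTop (𝓝 0) := by
  have e : ∀ K, Set.ncard {k | k < K ∧ Odd (g^[k] n)} = oc n K := fun K => by
    rw [oc, Nat.count_eq_card_filter_range, ← Set.ncard_coe_finset]
    congr 1
    ext k
    simp
  have inf : Tendsto (fun K => (oc n K : ℝ)) atTop atTop := by
    refine tendsto_natCast_atTop_atTop.comp (tendsto_atTop_atTop.2 fun M => ?_)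
    obtain ⟨k, hk⟩ := h (n * 8 ^ M)
    refine ⟨k, fun K kK => le_trans ?_ (Nat.count_monotone _ kK)⟩
    by_contra a
    have a1 := (total n k).2
    have a2 := Nat.mul_le_mul_left n (Nat.pow_le_pow_right (show 0 < 8 by norm_num) (not_le.1 a).le)
    have a3 := Nat.le_mul_of_pos_right (g^[k] n) (Nat.pow_pos (n := ec n k) (show 0 < 2 by norm_num))
    exact absurd (a3.trans (a1.trans a2)) (not_le.2 hk)
  simp only [e]
  refine tendsto_order.2 ⟨fun a ha => Eventually.of_forall fun K => ha.trans_le (by positivity),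
    fun ε ε0 => ?_⟩
  obtain ⟨C, hC⟩ := count hij hS h (half_pos ε0)
  filter_upwards [inf.eventually_gt_atTop (C / (ε / 2)), inf.eventually_gt_atTop 0] with K k1 k2
  rw [div_lt_iff₀ (half_pos ε0)] at k1
  rw [div_lt_iff₀ k2]
  linarith [hC K]

end Pool.Agent.MP_574b9b_nt.AB
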