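import Mathlib

/-! The map `7 x + 1` on the integers: affine families of starting values can be merged. -/

set_option autoImplicit false

namespace Pool.Agent.MP_574b9b_nt.AB

/-- The shortcut map on the integers. -/
def T (x : ℤ) : ℤ := if x % 2 = 0 then x / 2 else (7 * x + 1) / 2

theorem T_even (x : ℤ) : T (2 * x) = x := by
  unfold T
  split_ifs <;> omega

theorem T_odd {x y : ℤ} (h : 7 * x + 1 = 2 * y) : T x = y := by
  unfold T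
  split_ifs <;> omega

/-- The two trajectories meet. -/
def Eqv (x y : ℤ) : Prop := ∃ k l : ℕ, T^[k] x = T^[l] y

theorem Eqv.refl (x : ℤ) : Eqv x x := ⟨0, 0, rfl⟩

theorem Eqv.symm {x y : ℤ} (h : Eqv x y) : Eqv y x := let ⟨k, l, e⟩ := h; ⟨l, k, e.symm⟩

theorem Eqv.trans {x y z : ℤ} (h : Eqv x y) (h' : Eqv y z) : Eqv x z := by
  obtain ⟨k, l, e⟩ := h
  obtain ⟨k', l', e'⟩ := h'
  refine ⟨k' + k, l + l', ?_⟩
  rw [Function.iterate_add_apply, e, ← Function.iterate_add_apply, Nat.add_comm k' l,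
    Function.iterate_add_apply, e', ← Function.iterate_add_apply]

theorem eqv_it (k : ℕ) (x : ℤ) : Eqv x (T^[k] x) := ⟨k, 0, rfl⟩

theorem eqv_even {x y : ℤ} (h : x = 2 * y) : Eqv x y := ⟨1, 0, by rw [h]; exact T_even y⟩

theorem eqv_odd {x y : ℤ} (h : 7 * x + 1 = 2 * y) : Eqv x y := ⟨1, 0, T_odd h⟩

theorem eqv_pow (k : ℕ) (x : ℤ) : Eqv (2 ^ k * x) x := by
  induction k with
  | zero => simpa using Eqv.refl x
  | succ k ih => exact (eqv_even (by ring)).trans ih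

theorem affine (L : ℕ) (ρ : ℤ) :
    ∃ (a : ℕ) (c : ℤ), ∀ t : ℤ, Eqv (ρ + 2 ^ L * t) (c + 7 ^ a * t) := by
  induction L with
  | zero => exact ⟨0, ρ, fun t => Eqv.refl _⟩
  | succ L ih =>
    obtain ⟨a, c, h⟩ := ih
    rcases Int.even_or_odd' c with ⟨d, rfl | rfl⟩
    · refine ⟨a, d, fun t => ?_⟩
      have := h (2 * t)
      rw [show ρ + 2 ^ L * (2 * t) = ρ + 2 ^ (L + 1) * t by ring] at this
      exact this.trans (eqv_even (by ring))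
    · refine ⟨a + 1, 7 * d + 4, fun t => ?_⟩
      have := h (2 * t)
      rw [show ρ + 2 ^ L * (2 * t) = ρ + 2 ^ (L + 1) * t by ring] at this
      exact this.trans (eqv_odd (by ring))

theorem inv7 (a L : ℕ) (c ρ : ℤ) : ∃ τ : ℤ, (2 : ℤ) ^ L ∣ c + 7 ^ a * τ - ρ := by
  have h : IsCoprime ((7 : ℤ) ^ a) (2 ^ L) :=
    IsCoprime.pow (⟨1, -3, by norm_num⟩ : IsCoprime (7 : ℤ) 2)
  obtain ⟨u, v, e⟩ := h
  exact ⟨u * (ρ - c), -(v * (ρ - c)), by linear_combination (ρ - c) * e⟩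

/-- `x` and `7 ^ e * x + r` merge on a residue class modulo a power of two. -/
def Mer (e : ℕ) (r : ℤ) : Prop :=
  ∃ (L : ℕ) (ρ : ℤ), ∀ x : ℤ, (2 : ℤ) ^ L ∣ x - ρ → Eqv x (7 ^ e * x + r)

theorem mer0 : Mer 0 0 := ⟨0, 0, fun x _ => by simpa using Eqv.refl x⟩

theorem lift_even {L : ℕ} {ρ x : ℤ} (h : (2 : ℤ) ^ (L + 1) ∣ x - 2 * ρ) :
    ∃ y, x = 2 * y ∧ (2 : ℤ) ^ L ∣ y - ρ := by
  obtain ⟨s, e⟩ := h
  exact ⟨ρ + 2 ^ L * s, by linear_combination e, s, by ring⟩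

theorem lift_odd (L : ℕ) (ρ : ℤ) : ∃ ρ' : ℤ, ∀ x : ℤ, (2 : ℤ) ^ (L + 1) ∣ x - ρ' →
    ∃ y, 7 * x + 1 = 2 * y ∧ (2 : ℤ) ^ L ∣ y - ρ := by
  obtain ⟨τ, h⟩ := inv7 1 (L + 1) 1 (2 * ρ)
  refine ⟨τ, fun x hx => lift_even ?_⟩
  have := h.add (hx.mul_left 7)
  rwa [show 1 + 7 ^ 1 * τ - 2 * ρ + 7 * (x - τ) = 7 * x + 1 - 2 * ρ by ring] at this

theorem Mer.ee {e : ℕ} {r r' : ℤ} (h : Mer e r') (hr : r = 2 * r') : Mer e r := by
  obtain ⟨L, ρ, h⟩ := h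
  refine ⟨L + 1, 2 * ρ, fun x hx => ?_⟩
  obtain ⟨y, e1, e2⟩ := lift_even hx
  exact ((eqv_even e1).trans (h y e2)).trans (eqv_even (by rw [e1, hr]; ring)).symm

theorem Mer.oe {e : ℕ} {r r' : ℤ} (h : Mer e r') (hr : r = 2 * r' + 7 ^ e) : Mer (e + 1) r := by
  obtain ⟨L, ρ, h⟩ := h
  obtain ⟨ρ', k⟩ := lift_odd L ρ
  refine ⟨L + 1, ρ', fun x hx => ?_⟩
  obtain ⟨y, e1, e2⟩ := k x hx
  exact ((eqv_odd e1).trans (h y e2)).trans
    (eqv_even (by rw [hr]; linear_combination 7 ^ e * e1)).symm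

theorem Mer.eo {e : ℕ} {r r' : ℤ} (h : Mer (e + 1) r') (hr : 7 * r + 1 = 2 * r') : Mer e r := by
  obtain ⟨L, ρ, h⟩ := h
  refine ⟨L + 1, 2 * ρ, fun x hx => ?_⟩
  obtain ⟨y, e1, e2⟩ := lift_even hx
  exact ((eqv_even e1).trans (h y e2)).trans
    (eqv_odd (by rw [e1]; linear_combination hr)).symm

theorem Mer.oo {e : ℕ} {r r' : ℤ} (h : Mer e r') (hr : 7 * r + 1 = 2 * r' + 7 ^ e) : Mer e r := by
  obtain ⟨L, ρ, h⟩ := h
  obtain ⟨ρ', k⟩ := lift_odd L ρ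
  refine ⟨L + 1, ρ', fun x hx => ?_⟩
  obtain ⟨y, e1, e2⟩ := k x hx
  exact ((eqv_odd e1).trans (h y e2)).trans
    (eqv_odd (by linear_combination 7 ^ e * e1 + hr)).symm

theorem Mer.neg {r : ℤ} (h : Mer 0 r) : Mer 0 (-r) := by
  obtain ⟨L, ρ, h⟩ := h
  refine ⟨L, ρ + r, fun x hx => ?_⟩
  have := h (x - r) (by rwa [show x - r - ρ = x - (ρ + r) by ring])
  rw [show 7 ^ 0 * (x - r) + r = x by ring] at this
  rw [show 7 ^ 0 * x + -r = x - r by ring]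
  exact this.symm

theorem odd7 (e : ℕ) : ∃ s : ℤ, 0 ≤ s ∧ (7 : ℤ) ^ e = 2 * s + 1 := by
  induction e with
  | zero => exact ⟨0, le_rfl, rfl⟩
  | succ e ih =>
    obtain ⟨s, h0, h⟩ := ih
    exact ⟨7 * s + 3, by omega, by rw [pow_succ, h]; ring⟩

theorem down (e : ℕ) (B : ℕ) : ∀ r : ℤ, r ≠ 0 → r.natAbs ≤ B →
    (∀ r' : ℤ, 2 * |r'| ≤ B + 7 ^ e → Mer e r') → Mer (e + 1) r := by
  induction B using Nat.strong_induction_on with
  | _ B ih =>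
    intro r h0 hB h
    obtain ⟨s, s0, hs⟩ := odd7 e
    rcases Int.even_or_odd' r with ⟨d, rfl | rfl⟩
    · exact (ih (B / 2) (by omega) d (by omega) (by omega) fun r' k =>
        h r' (k.trans (by omega))).ee rfl
    · refine (h (d - s) ?_).oe (by rw [hs]; ring)
      rw [hs]
      rcases abs_cases (d - s) with k | k <;> omega

theorem mer_zero (B : ℕ) : ∀ r : ℤ, r.natAbs ≤ B → Mer 0 r := by
  have m1 : Mer 0 1 := Mer.eo (r' := 4)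
    (((mer0.oe (r := 1) (by norm_num)).ee (r := 2) rfl).ee rfl) rfl
  have m5 : Mer 0 5 := Mer.eo (r' := 18)
    ((((m1.ee (r := 2) rfl).ee (r := 4) rfl).oe (r := 9) (by norm_num)).ee rfl) rfl
  have m3 : Mer 0 3 := Mer.eo (r' := 11) (m5.oe (by norm_num)) rfl
  induction B using Nat.strong_induction_on with
  | _ B ih =>
    have key : ∀ d : ℤ, (4 * d + 1).natAbs ≤ B → Mer 0 (4 * d + 1) := by
      intro d hd
      by_cases k : 5 < (4 * d + 1).natAbs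
      · refine Mer.eo (r' := 2 * (7 * d + 2)) (Mer.ee ?_ rfl) (by ring)
        refine down 0 (7 * d + 2).natAbs _ (by omega) le_rfl fun r' k' => ?_
        rw [pow_zero, Int.abs_eq_natAbs] at k'
        exact ih r'.natAbs (by omega) r' le_rfl
      · have : d = -1 ∨ d = 0 ∨ d = 1 := by omega
        rcases this with rfl | rfl | rfl
        exacts [m3.neg, m1, m5]
    intro r hr
    by_cases h0 : r = 0
    · rw [h0]
      exact mer0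
    rcases Int.even_or_odd' r with ⟨d, rfl | rfl⟩
    · exact (ih (B / 2) (by omega) d (by omega)).ee rfl
    · rcases Int.even_or_odd' d with ⟨s, rfl | rfl⟩
      · have := key s (by omega)
        rwa [show 4 * s + 1 = 2 * (2 * s) + 1 by ring] at this
      · have := (key (-s - 1) (by omega)).neg
        rwa [show -(4 * (-s - 1) + 1) = 2 * (2 * s + 1) + 1 by ring] at this

theorem mer (e : ℕ) : ∀ r : ℤ, Mer e r := by
  induction e with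
  | zero => exact fun r => mer_zero _ r le_rfl
  | succ e ih =>
    intro r
    by_cases h : r = 0
    · obtain ⟨s, s0, hs⟩ := odd7 e
      refine (down e _ (-(7 * s + 3)) (by omega) le_rfl fun r' _ => ih r').oo ?_
      rw [h, pow_succ, hs]
      ring
    · exact down e _ r h le_rfl fun r' _ => ih r'

theorem mer2 (a a' : ℕ) (c c' : ℤ) : ∃ (L : ℕ) (τ : ℤ), ∀ t : ℤ, (2 : ℤ) ^ L ∣ t - τ →
    Eqv (c + 7 ^ a * t) (c' + 7 ^ a' * t) := by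
  wlog h : a ≤ a' generalizing a a' c c'
  · obtain ⟨L, τ, k⟩ := this a' a c' c (by omega)
    exact ⟨L, τ, fun t ht => (k t ht).symm⟩
  obtain ⟨e, rfl⟩ := Nat.exists_eq_add_of_le h
  obtain ⟨L, ρ, k⟩ := mer e (c' - 7 ^ e * c)
  obtain ⟨τ, hτ⟩ := inv7 a L c ρ
  refine ⟨L, τ, fun t ht => ?_⟩
  have h1 := hτ.add (ht.mul_left (7 ^ a))
  rw [show c + 7 ^ a * τ - ρ + 7 ^ a * (t - τ) = c + 7 ^ a * t - ρ by ring] at h1
  have h2 := k _ h1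
  rwa [show 7 ^ e * (c + 7 ^ a * t) + (c' - 7 ^ e * c) = c' + 7 ^ (a + e) * t by ring] at h2

/-- Finitely many forms `2 ^ l * 7 ^ e * N + z` merge on a residue class. -/
theorem fam (F : Finset (ℕ × ℕ × ℤ)) : ∃ (L : ℕ) (ρ : ℤ), ∀ t : ℤ, ∀ f ∈ F,
    Eqv (ρ + 2 ^ L * t) (2 ^ f.1 * 7 ^ f.2.1 * (ρ + 2 ^ L * t) + f.2.2) := by
  classical
  induction F using Finset.induction_on with
  | empty => exact ⟨0, 0, fun _ _ h => absurd h (Finset.notMem_empty _)⟩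
  | insert f F _ ih =>
    obtain ⟨L, ρ, h⟩ := ih
    obtain ⟨a, c, h1⟩ := affine L ρ
    obtain ⟨a', c', h2⟩ := affine (L + f.1) (2 ^ f.1 * 7 ^ f.2.1 * ρ + f.2.2)
    obtain ⟨L', τ, h3⟩ := mer2 a (a' + f.2.1) c c'
    refine ⟨L + L', ρ + 2 ^ L * τ, fun t f' hf => ?_⟩
    rw [show ρ + 2 ^ L * τ + 2 ^ (L + L') * t = ρ + 2 ^ L * (τ + 2 ^ L' * t) by ring]
    rcases Finset.mem_insert.1 hf with rfl | hf
    · have h4 := h2 (7 ^ f'.2.1 * (τ + 2 ^ L' * t))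
      rw [show 2 ^ f'.1 * 7 ^ f'.2.1 * ρ + f'.2.2 + 2 ^ (L + f'.1) * (7 ^ f'.2.1 * (τ + 2 ^ L' * t)) =
        2 ^ f'.1 * 7 ^ f'.2.1 * (ρ + 2 ^ L * (τ + 2 ^ L' * t)) + f'.2.2 by ring,
        show c' + 7 ^ a' * (7 ^ f'.2.1 * (τ + 2 ^ L' * t)) =
          c' + 7 ^ (a' + f'.2.1) * (τ + 2 ^ L' * t) by ring] at h4
      exact ((h1 _).trans (h3 _ ⟨t, by ring⟩)).trans h4.symm
    · exact h _ f' hf

theorem pow8 (E : ℕ) : ∃ w : ℤ, (8 : ℤ) ^ 7 ^ E = 1 + 7 ^ (E + 1) * (1 + 7 * w) := by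
  induction E with
  | zero => exact ⟨0, by norm_num⟩
  | succ E ih =>
    obtain ⟨w, h⟩ := ih
    rw [pow_succ 7 E, pow_mul, h, pow_succ (7 : ℤ) (E + 1), pow_succ (7 : ℤ) E]
    generalize (7 : ℤ) ^ E = P
    generalize hv : 1 + 7 * w = v
    refine ⟨w + 3 * P * v ^ 2 + 35 * P ^ 2 * v ^ 3 + 245 * P ^ 3 * v ^ 4 + 1029 * P ^ 4 * v ^ 5 +
      2401 * P ^ 5 * v ^ 6 + 2401 * P ^ 6 * v ^ 7, ?_⟩
    linear_combination (-(P * 49)) * hv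

theorem dstep {E s : ℕ} {A d y : ℤ} (h : 8 ^ s * A - (7 * d + 4) = 7 ^ (E + 1) * y) (n : ℕ) :
    ∃ z : ℤ, 8 ^ (s + n * 7 ^ E) * A - (7 * d + 4) = 7 ^ (E + 1) * (y + 4 * n + 7 * z) := by
  obtain ⟨w, hw⟩ := pow8 E
  induction n with
  | zero => exact ⟨0, by simpa using h⟩
  | succ n ih =>
    obtain ⟨z, hz⟩ := ih
    refine ⟨z + d + w * (7 * d + 4) + 7 ^ E * (1 + 7 * w) * (y + 4 * n + 7 * z), ?_⟩
    rw [Nat.succ_mul, ← Nat.add_assoc, pow_add, hw]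
    push_cast
    linear_combination (1 + 7 ^ (E + 1) * (1 + 7 * w)) * hz

theorem dlog (E : ℕ) (d d' : ℤ) :
    ∃ (s : ℕ) (y : ℤ), 8 ^ s * (7 * d' + 4) - (7 * d + 4) = 7 ^ (E + 1) * y := by
  induction E with
  | zero => exact ⟨0, d' - d, by ring⟩
  | succ E ih =>
    obtain ⟨s, y, h⟩ := ih
    obtain ⟨z, hz⟩ := dstep h (5 * y % 7).toNat
    obtain ⟨v, hv⟩ : ∃ v : ℤ, y + 4 * ((5 * y % 7).toNat : ℤ) = 7 * v := ⟨(y + 4 * (5 * y % 7)) / 7, by omega⟩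
    exact ⟨_, v + z, by rw [hz, hv]; ring⟩

theorem target (m : ℕ) (hm : 0 < m) : ∃ d : ℕ, Eqv m (7 * d + 4) := by
  induction m using Nat.strong_induction_on with
  | _ m ih =>
    rcases Nat.even_or_odd' m with ⟨d, rfl | rfl⟩
    · obtain ⟨e, h⟩ := ih d (by omega) (by omega)
      exact ⟨e, (eqv_even (by push_cast; ring)).trans h⟩
    · exact ⟨d, eqv_odd (by push_cast; ring)⟩

theorem good (L : ℕ) (ρ : ℤ) : ∃ E₀ : ℕ, ∀ E, E₀ ≤ E → ∃ (L' : ℕ) (τ d : ℤ), ∀ t : ℤ,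
    Eqv (ρ + 2 ^ L * (τ + 2 ^ L' * t)) (7 * d + 4 + 7 ^ (E + 1) * t) := by
  have step : ∀ (E L' : ℕ) (τ c : ℤ),
      (∀ t : ℤ, Eqv (ρ + 2 ^ L * (τ + 2 ^ L' * t)) (c + 7 ^ E * t)) → ∃ (L' : ℕ) (τ d : ℤ),
      ∀ t : ℤ, Eqv (ρ + 2 ^ L * (τ + 2 ^ L' * t)) (7 * d + 4 + 7 ^ (E + 1) * t) := by
    intro E L' τ c h
    obtain ⟨σ, d, e⟩ := inv7 E 1 c 1
    refine ⟨L' + 1, τ + 2 ^ L' * σ, d, fun t => ?_⟩
    have := h (σ + 2 * t)
    rw [show τ + 2 ^ L' * (σ + 2 * t) = τ + 2 ^ L' * σ + 2 ^ (L' + 1) * t by ring] at this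
    exact this.trans (eqv_odd (by linear_combination 7 * e))
  obtain ⟨a, c, h⟩ := affine L ρ
  refine ⟨a, fun E hE => ?_⟩
  induction E, hE using Nat.le_induction with
  | base => exact step a 0 0 c fun t => by simpa using h t
  | succ E _ ih =>
    obtain ⟨L', τ, d, k⟩ := ih
    exact step (E + 1) L' τ _ k

/-- Members of a residue class that meet the trajectory of `7 * d + 4`. -/
theorem reach (L : ℕ) (ρ : ℤ) (d : ℤ) : ∃ E₀ : ℕ, ∀ E, E₀ ≤ E → ∃ (J : ℕ) (C : ℤ), ∀ n : ℕ,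
    ∃ t : ℤ, Eqv (ρ + 2 ^ L * t) (7 * d + 4) ∧
      7 ^ (E + 1) * (ρ + 2 ^ L * t) = 2 ^ (J + n * (3 * 7 ^ E)) * (7 * d + 4) + C := by
  obtain ⟨E₀, h⟩ := good L ρ
  refine ⟨E₀, fun E hE => ?_⟩
  obtain ⟨L', τ, c, k⟩ := h E hE
  obtain ⟨s, y, e⟩ := dlog E c d
  refine ⟨L + L' + 3 * s, 7 ^ (E + 1) * (ρ + 2 ^ L * τ) - 2 ^ (L + L') * (7 * c + 4), fun n => ?_⟩
  obtain ⟨z, hz⟩ := dstep e n
  rw [show (8 : ℤ) = 2 ^ 3 by norm_num, ← pow_mul] at hz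
  refine ⟨τ + 2 ^ L' * (y + 4 * n + 7 * z), (k _).trans ?_, ?_⟩
  · rw [← hz, add_sub_cancel]
    exact eqv_pow _ _
  · rw [show L + L' + 3 * s + n * (3 * 7 ^ E) = L + L' + 3 * (s + n * 7 ^ E) by ring,
      pow_add (2 : ℤ) (L + L')]
    linear_combination (-(2 ^ (L + L'))) * hz

end Pool.Agent.MP_574b9b_nt.AB
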