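import Pool.Agent.MP_574b9b_nt.ab.Spec

/-! Blocks of integers that meet a given trajectory, with prescribed leading digits. -/

set_option autoImplicit false

namespace Pool.Agent.MP_574b9b_nt.AB

theorem dens {α β x y : ℝ} (hβ : 0 < β) (h : Irrational (α / β)) (hxy : x < y) (n₀ : ℕ) :
    ∃ (n : ℕ) (σ : ℤ), n₀ ≤ n ∧ x < n * α - σ * β ∧ n * α - σ * β < y := by
  have : Fact (0 < β) := ⟨hβ⟩
  have d : DenseRange (· • (α : AddCircle β) : ℕ → AddCircle β) :=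
    denseRange_zsmul_iff_nsmul.1 (AddCircle.denseRange_zsmul_coe_iff.2 h)
  have o : IsOpen ((fun w : ℝ => (w : AddCircle β)) '' Set.Ioo (x - n₀ * α) (y - n₀ * α)) :=
    QuotientAddGroup.isOpenMap_coe _ isOpen_Ioo
  obtain ⟨n, w, hw, e⟩ := d.exists_mem_open o ((Set.nonempty_Ioo.2 (by linarith)).image _)
  simp only at e
  rw [← AddCircle.coe_nsmul, QuotientAddGroup.eq, AddSubgroup.mem_zmultiples_iff] at e
  obtain ⟨σ, e⟩ := e
  rw [zsmul_eq_mul, nsmul_eq_mul] at e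
  refine ⟨n + n₀, σ, by omega, ?_, ?_⟩
  · push_cast
    linarith [hw.1]
  · push_cast
    linarith [hw.2]

theorem dens' {A B x y : ℝ} (hA : 0 < A) (hB : 1 < B) (h : Irrational (Real.log A / Real.log B))
    (hx : 0 < x) (hxy : x < y) (n₀ : ℕ) :
    ∃ (n : ℕ) (σ : ℤ), n₀ ≤ n ∧ B ^ σ * x < A ^ n ∧ A ^ n < B ^ σ * y := by
  obtain ⟨n, σ, h0, h1, h2⟩ := dens (Real.log_pos hB) h (Real.log_lt_log hx hxy) n₀
  have hy : 0 < y := hx.trans hxy
  have hs : 0 < B ^ σ := zpow_pos (by linarith) σ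
  refine ⟨n, σ, h0, ?_, ?_⟩
  · rw [← Real.log_lt_log_iff (by positivity) (by positivity), Real.log_mul hs.ne' hx.ne',
      Real.log_zpow, Real.log_pow]
    linarith
  · rw [← Real.log_lt_log_iff (by positivity) (by positivity), Real.log_mul hs.ne' hy.ne',
      Real.log_zpow, Real.log_pow]
    linarith

theorem irr : Irrational (Real.log 7 / Real.log 2) := by
  rintro ⟨q, h⟩
  have l2 : 0 < Real.log 2 := Real.log_pos (by norm_num)
  have l7 : 0 < Real.log 7 := Real.log_pos (by norm_num)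
  have hq : 0 < q := by
    have : (0 : ℝ) < q := by rw [h]; positivity
    exact_mod_cast this
  obtain ⟨k, hk⟩ := Int.eq_ofNat_of_zero_le (Rat.num_pos.2 hq).le
  have hd : (0 : ℝ) < q.den := by exact_mod_cast q.pos
  rw [Rat.cast_def, hk, div_eq_div_iff hd.ne' l2.ne'] at h
  have e : Real.log (2 ^ k) = Real.log (7 ^ q.den) := by
    rw [Real.log_pow, Real.log_pow]
    push_cast at h
    linarith
  have e1 : (2 : ℝ) ^ k = 7 ^ q.den := Real.log_injOn_pos (by simp) (by simp) e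
  have e2 : (2 : ℕ) ^ k = 7 ^ q.den := by exact_mod_cast e1
  have k0 : k ≠ 0 := by
    have := Rat.num_pos.2 hq
    omega
  have : (2 : ℕ) ∣ 7 ^ q.den := e2 ▸ dvd_pow_self 2 k0
  have := Nat.Prime.dvd_of_dvd_pow Nat.prime_two this
  omega

theorem fit {u B Y C P N : ℝ} (hP : 1 ≤ P) (e : P * N = Y + C) (h1 : B * (u + 1 / 3) * P < Y)
    (h2 : Y < B * (u + 2 / 3) * P) (hC : 3 * |C| ≤ B) : B * u ≤ N ∧ N < B * (u + 1) := by
  have a1 := le_abs_self C
  have a2 := neg_abs_le C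
  have a3 := abs_nonneg C
  have a4 : B ≤ B * P := by nlinarith
  constructor
  · by_contra k
    nlinarith
  · by_contra k
    nlinarith

theorem place (i j u D E₀ : ℕ) (hij : 0 < i + j) (hD : 0 < D) (Q : ℤ → Prop)
    (H : ∀ E, E₀ ≤ E → ∃ (J : ℕ) (C : ℤ), ∀ n : ℕ,
      ∃ N : ℤ, Q N ∧ 7 ^ (E + 1) * N = 2 ^ (J + n * (3 * 7 ^ E)) * (D : ℤ) + C) :
    ∃ (N : ℤ) (l σ : ℕ), Q N ∧ l ≤ i ∧ (2 ^ i * 7 ^ j) ^ σ * (u : ℤ) ≤ 2 ^ l * N ∧
      2 ^ l * N < (2 ^ i * 7 ^ j) ^ σ * (u + 1) := by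
  have l2 : 0 < Real.log 2 := Real.log_pos (by norm_num)
  have hD' : (0 : ℝ) < D := by exact_mod_cast hD
  rcases Nat.eq_zero_or_pos j with rfl | hj
  · obtain ⟨E, s, hE, h1, h2⟩ := dens' (A := 7) (B := 2) (x := D / (7 * (u + 2 / 3)))
      (y := D / (7 * (u + 1 / 3))) (by norm_num) (by norm_num) irr (by positivity)
      (div_lt_div_of_pos_left hD' (by positivity) (by linarith)) E₀
    obtain ⟨J, C, k⟩ := H E hE
    obtain ⟨N, hN, e⟩ := k (s.natAbs + 3 * C.natAbs)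
    have hw : s.natAbs + 3 * C.natAbs ≤ J + (s.natAbs + 3 * C.natAbs) * (3 * 7 ^ E) :=
      le_add_left (Nat.le_mul_of_pos_right _ (by positivity))
    generalize J + (s.natAbs + 3 * C.natAbs) * (3 * 7 ^ E) = w at hw e
    obtain ⟨c, hc⟩ : ∃ c : ℕ, (w : ℤ) = c + s := ⟨(w - s).toNat, by omega⟩
    have e2 : (2 : ℝ) ^ w = 2 ^ c * 2 ^ s := by
      rw [← zpow_natCast, hc, zpow_add₀ (by norm_num), zpow_natCast]
    have e' : (7 : ℝ) ^ (E + 1) * N = 2 ^ w * D + C := by exact_mod_cast e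
    have hs : (0 : ℝ) < 2 ^ c := by positivity
    rw [← mul_div_assoc, div_lt_iff₀ (by positivity)] at h1
    rw [← mul_div_assoc, lt_div_iff₀ (by positivity)] at h2
    have hC : 3 * |(C : ℝ)| ≤ 2 ^ c := by
      have a : 3 * C.natAbs ≤ 2 ^ c := le_trans (by omega) Nat.lt_two_pow_self.le
      have a' : ((3 * C.natAbs : ℕ) : ℝ) ≤ (2 ^ c : ℕ) := by exact_mod_cast a
      simpa [Nat.cast_natAbs] using a'
    obtain ⟨f1, f2⟩ := fit (u := u) (one_le_pow₀ (by norm_num)) e'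
      (by rw [e2, pow_succ]; nlinarith) (by rw [e2, pow_succ]; nlinarith) hC
    have hm := Nat.mod_lt c (show 0 < i by omega)
    have ex : ((2 : ℤ) ^ i * 7 ^ 0) ^ (c / i + 1) = 2 ^ (i - c % i) * 2 ^ c := by
      rw [pow_zero, mul_one, ← pow_mul, ← pow_add]
      have := Nat.div_add_mod c i
      congr 1
      rw [Nat.mul_add]
      omega
    have g1 : (2 : ℤ) ^ c * u ≤ N := by exact_mod_cast f1
    have g2 : N < (2 : ℤ) ^ c * (u + 1) := by exact_mod_cast f2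
    have hp : (0 : ℤ) < 2 ^ (i - c % i) := by positivity
    refine ⟨N, i - c % i, c / i + 1, hN, by omega, ?_, ?_⟩
    · rw [ex, mul_assoc]
      exact mul_le_mul_of_nonneg_left g1 hp.le
    · rw [ex, mul_assoc]
      exact mul_lt_mul_of_pos_left g2 hp
  · obtain ⟨J, C, k⟩ := H E₀ le_rfl
    have hb : (1 : ℝ) < 2 ^ i * 7 ^ j :=
      one_lt_mul_of_le_of_lt (one_le_pow₀ (by norm_num)) (one_lt_pow₀ (by norm_num) hj.ne')
    have ir : Irrational (Real.log (2 ^ (3 * 7 ^ E₀)) / Real.log (2 ^ i * 7 ^ j)) := by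
      rw [← irrational_inv_iff, inv_div, Real.log_mul (by positivity) (by positivity),
        Real.log_pow, Real.log_pow, Real.log_pow]
      have := ((irr.natCast_mul hj.ne').natCast_add i).div_natCast
        (show 3 * 7 ^ E₀ ≠ 0 by positivity)
      rwa [show ((i : ℝ) + j * (Real.log 7 / Real.log 2)) / (3 * 7 ^ E₀ : ℕ) =
        (i * Real.log 2 + j * Real.log 7) / ((3 * 7 ^ E₀ : ℕ) * Real.log 2) by field_simp] at this
    obtain ⟨Y, hY⟩ : ∃ Y : ℝ, Y = 7 ^ (E₀ + 1) / (2 ^ J * D) := ⟨_, rfl⟩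
    have Y0 : 0 < Y := by rw [hY]; positivity
    obtain ⟨n₀, hn₀⟩ := exists_nat_ge ((3 * |(C : ℝ)| + 1) * ((u + 2 / 3) * Y))
    obtain ⟨n, s, hn, h1, h2⟩ := dens' (A := 2 ^ (3 * 7 ^ E₀)) (x := (u + 1 / 3) * Y)
      (y := (u + 2 / 3) * Y) (by positivity) hb ir (by positivity)
      (mul_lt_mul_of_pos_right (by linarith) Y0) n₀
    have big : (n₀ : ℝ) ≤ (2 ^ (3 * 7 ^ E₀)) ^ n := by
      have a : n₀ ≤ (2 ^ (3 * 7 ^ E₀)) ^ n := by
        rw [← pow_mul]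
        exact (hn.trans (Nat.le_mul_of_pos_left _ (by positivity))).trans Nat.lt_two_pow_self.le
      exact_mod_cast a
    have hB : 3 * |(C : ℝ)| + 1 < (2 ^ i * 7 ^ j) ^ s :=
      lt_of_mul_lt_mul_right ((hn₀.trans big).trans_lt h2) (by positivity)
    have s0 : 0 < s := (one_lt_zpow_iff_right₀ hb).1 (by linarith [abs_nonneg (C : ℝ)])
    obtain ⟨σ, rfl⟩ := Int.eq_ofNat_of_zero_le s0.le
    rw [zpow_natCast] at h1 h2 hB
    obtain ⟨N, hN, e⟩ := k n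
    have e' : (7 : ℝ) ^ (E₀ + 1) * N = 2 ^ (J + n * (3 * 7 ^ E₀)) * D + C := by exact_mod_cast e
    have e2 : (2 : ℝ) ^ (J + n * (3 * 7 ^ E₀)) * D = (2 ^ (3 * 7 ^ E₀)) ^ n * (2 ^ J * D) := by
      rw [pow_add, ← pow_mul, Nat.mul_comm n]
      ring
    rw [hY, ← mul_assoc, ← mul_div_assoc, div_lt_iff₀ (by positivity)] at h1
    rw [hY, ← mul_assoc, ← mul_div_assoc, lt_div_iff₀ (by positivity)] at h2
    obtain ⟨f1, f2⟩ := fit (u := u) (one_le_pow₀ (by norm_num)) e'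
      (by rw [e2]; exact h1) (by rw [e2]; exact h2) (by linarith)
    refine ⟨N, 0, σ, hN, by omega, ?_, ?_⟩
    · rw [pow_zero, one_mul]
      exact_mod_cast f1
    · rw [pow_zero, one_mul]
      exact_mod_cast f2

theorem T_g (k : ℕ) : ∀ x : ℕ, ∃ k' : ℕ, T^[k] (x : ℤ) = (g^[k'] x : ℕ) := by
  induction k with
  | zero => exact fun x => ⟨0, rfl⟩
  | succ k ih =>
    intro x
    rcases Nat.even_or_odd' x with ⟨d, rfl | rfl⟩
    · obtain ⟨k', h⟩ := ih d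
      refine ⟨k' + 1, ?_⟩
      rw [Function.iterate_succ_apply, Function.iterate_succ_apply,
        show g (2 * d) = d by unfold g; split_ifs <;> omega, ← h, ← T_even d]
      simp [T_even]
    · obtain ⟨k', h⟩ := ih (7 * d + 4)
      refine ⟨k' + 1 + 1, ?_⟩
      rw [Function.iterate_succ_apply, Function.iterate_succ_apply, Function.iterate_succ_apply,
        show g (2 * d + 1) = 2 * (7 * d + 4) by unfold g; split_ifs <;> omega,
        show g (2 * (7 * d + 4)) = 7 * d + 4 by unfold g; split_ifs <;> omega, ← h,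
        T_odd (y := (7 * d + 4 : ℕ)) (by push_cast; ring)]

theorem pos : PosStmt := by
  classical
  intro i j m hij hm u R hu
  obtain ⟨d, hd⟩ := target m hm
  obtain ⟨L, ρ, hF⟩ := fam
    ((Finset.range (i + 1) ×ˢ Finset.range (R + 1) ×ˢ Finset.range ((2 ^ i * 7 ^ j) ^ R)).image
      fun f => (f.1 + i * f.2.1, j * f.2.1, (f.2.2 : ℤ)))
  obtain ⟨E₀, hE⟩ := reach L ρ d
  obtain ⟨N, l, σ, ⟨t, rfl, hN⟩, hl, h1, h2⟩ := place i j u (7 * d + 4) E₀ hij (by omega)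
    (fun N => ∃ t, N = ρ + 2 ^ L * t ∧ Eqv N (7 * d + 4)) fun E k => by
      obtain ⟨J, C, k'⟩ := hE E k
      refine ⟨J, C, fun n => ?_⟩
      obtain ⟨t, a, b⟩ := k' n
      exact ⟨_, ⟨t, rfl, a⟩, by rw [b]; push_cast; ring⟩
  obtain ⟨z, hz⟩ := Int.eq_ofNat_of_zero_le (sub_nonneg.2 h1)
  refine ⟨σ, z, ?_, fun r z' hr hz' hS => ?_⟩
  · have : (z : ℤ) < (2 ^ i * 7 ^ j) ^ σ := by linarith
    exact_mod_cast this
  · have a := hF t (l + i * r, j * r, (z' : ℤ)) (Finset.mem_image.2 ⟨(l, r, z'), by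
      simp only [Finset.mem_product, Finset.mem_range]
      exact ⟨by omega, by omega, hz'.trans_le (Nat.pow_le_pow_right (by positivity) hr)⟩, rfl⟩)
    have e : (2 : ℤ) ^ (l + i * r) * 7 ^ (j * r) * (ρ + 2 ^ L * t) + z' =
        (((2 ^ i * 7 ^ j) ^ r * ((2 ^ i * 7 ^ j) ^ σ * u + z) + z' : ℕ) : ℤ) := by
      push_cast
      rw [← hz, mul_pow (2 ^ i) (7 ^ j) r, ← pow_mul, ← pow_mul]
      ring
    simp only at a
    rw [e] at a
    obtain ⟨k, k', h⟩ := a.symm.trans (hN.trans hd.symm)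
    obtain ⟨c, hc⟩ := T_g k ((2 ^ i * 7 ^ j) ^ r * ((2 ^ i * 7 ^ j) ^ σ * u + z) + z')
    obtain ⟨c', hc'⟩ := T_g k' m
    rw [hc, hc'] at h
    exact hS c c' (by exact_mod_cast h)

end Pool.Agent.MP_574b9b_nt.AB
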