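import Pool.Agent.MP_574b9b_nt.ab.Merge

/-! Statements for the automata barrier for `7 n + 1`. -/

set_option autoImplicit false

namespace Pool.Agent.MP_574b9b_nt.AB

/-- The map of the problem. -/
def g (n : ℕ) : ℕ := if n % 2 = 0 then n / 2 else 7 * n + 1

/-- Every leading block `u` extends to a block all of whose extensions by at most `R` digits
avoid `S`. -/
def Holes (b : ℕ) (S : Set ℕ) : Prop :=
  ∀ u R : ℕ, 0 < u → ∃ σ z : ℕ, z < b ^ σ ∧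
    ∀ r z' : ℕ, r ≤ R → z' < b ^ r → b ^ r * (b ^ σ * u + z) + z' ∉ S

/-- Leading blocks with `p + 1` digits of members of `S`. -/
def Live (b : ℕ) (S : Set ℕ) (p : ℕ) : Set ℕ :=
  {v | b ^ p ≤ v ∧ v < b ^ (p + 1) ∧ ∃ r z : ℕ, z < b ^ r ∧ b ^ r * v + z ∈ S}

/-- Few blocks are leading blocks of members of `S`. -/
def Thin (b : ℕ) (S : Set ℕ) : Prop :=
  ∀ ε : ℝ, 0 < ε → ∃ p₀ : ℕ, ∀ p : ℕ, p₀ ≤ p → ((Live b S p).ncard : ℝ) ≤ ε * (b : ℝ) ^ p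

def PosStmt : Prop :=
  ∀ i j m : ℕ, 0 < i + j → 0 < m →
    Holes (2 ^ i * 7 ^ j) {s | ∀ k l : ℕ, g^[k] s ≠ g^[l] m}

def AutoStmt : Prop :=
  ∀ (b : ℕ) (L : Language ℕ), 2 ≤ b → L.IsRegular →
    Holes b {s | Nat.digits b s ∈ L} → Thin b {s | Nat.digits b s ∈ L}

end Pool.Agent.MP_574b9b_nt.AB
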