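import Pool.Agent.MP_574b9b_nt.ab.Auto
import Pool.Agent.MP_574b9b_nt.ab.Pos

/-! Automatic sets in any base that miss the class of a trajectory are sparse. -/

set_option autoImplicit false

namespace Pool.Agent.MP_574b9b_nt.AB

theorem irr2 {B c : ℕ} (hB : 2 ≤ B) (hc : 0 < c) (h : ∀ i, B ≠ 2 ^ i) :
    Irrational (Real.log (2 ^ c) / Real.log B) := by
  rintro ⟨q, e⟩
  have B1 : (1 : ℝ) < B := by exact_mod_cast hB
  have l1 : 0 < Real.log B := Real.log_pos B1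
  have l2 : 0 < Real.log (2 ^ c) := Real.log_pos (one_lt_pow₀ (by norm_num) hc.ne')
  have hq : 0 < q := by
    have : (0 : ℝ) < q := by rw [e]; positivity
    exact_mod_cast this
  obtain ⟨k, hk⟩ := Int.eq_ofNat_of_zero_le (Rat.num_pos.2 hq).le
  have hd : (0 : ℝ) < q.den := by exact_mod_cast q.pos
  rw [Rat.cast_def, hk, div_eq_div_iff hd.ne' l1.ne'] at e
  have e0 : Real.log (B ^ k) = Real.log ((2 ^ c) ^ q.den) := by
    rw [Real.log_pow, Real.log_pow (2 ^ c)]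
    push_cast at e
    linarith
  have e1 : (B : ℝ) ^ k = (2 ^ c) ^ q.den :=
    Real.log_injOn_pos (Set.mem_Ioi.2 (by positivity)) (Set.mem_Ioi.2 (by positivity)) e0
  have e2 : B ^ k = 2 ^ (c * q.den) := by
    rw [pow_mul]
    exact_mod_cast e1
  have k0 : k ≠ 0 := by
    have := Rat.num_pos.2 hq
    omega
  obtain ⟨i, -, hi⟩ := (Nat.dvd_prime_pow Nat.prime_two).1 (e2 ▸ dvd_pow_self B k0)
  exact h i hi

theorem place2 (B u D E₀ : ℕ) (hB : 2 ≤ B) (hD : 0 < D) (Q : ℤ → Prop)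
    (H : ∀ E, E₀ ≤ E → ∃ (J : ℕ) (C : ℤ), ∀ n : ℕ,
      ∃ N : ℤ, Q N ∧ 7 ^ (E + 1) * N = 2 ^ (J + n * (3 * 7 ^ E)) * (D : ℤ) + C) :
    ∃ (N : ℤ) (l σ : ℕ), Q N ∧ l ≤ B ∧ (B : ℤ) ^ σ * (u : ℤ) ≤ 2 ^ l * N ∧
      2 ^ l * N < (B : ℤ) ^ σ * (u + 1) := by
  by_cases hp : ∃ i, B = 2 ^ i
  · obtain ⟨i, rfl⟩ := hp
    obtain ⟨N, l, σ, h1, h2, h3, h4⟩ := place i 0 u D E₀ (by
      rcases Nat.eq_zero_or_pos i with rfl | a
      exacts [absurd hB (by norm_num), a]) hD Q H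
    exact ⟨N, l, σ, h1, h2.trans Nat.lt_two_pow_self.le, by simpa using h3, by simpa using h4⟩
  have hD' : (0 : ℝ) < D := by exact_mod_cast hD
  obtain ⟨J, C, k⟩ := H E₀ le_rfl
  have hb : (1 : ℝ) < B := by exact_mod_cast hB
  have ir := irr2 (c := 3 * 7 ^ E₀) hB (by positivity) fun i a => hp ⟨i, a⟩
  obtain ⟨Y, hY⟩ : ∃ Y : ℝ, Y = 7 ^ (E₀ + 1) / (2 ^ J * D) := ⟨_, rfl⟩
  have Y0 : 0 < Y := by rw [hY]; positivity
  obtain ⟨n₀, hn₀⟩ := exists_nat_ge ((3 * |(C : ℝ)| + 1) * ((u + 2 / 3) * Y))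
  obtain ⟨n, s, hn, h1, h2⟩ := dens' (A := 2 ^ (3 * 7 ^ E₀)) (x := (u + 1 / 3) * Y)
    (y := (u + 2 / 3) * Y) (by positivity) hb ir (by positivity)
    (mul_lt_mul_of_pos_right (by linarith) Y0) n₀
  have big : (n₀ : ℝ) ≤ (2 ^ (3 * 7 ^ E₀)) ^ n := by
    have a : n₀ ≤ (2 ^ (3 * 7 ^ E₀)) ^ n := by
      rw [← pow_mul]
      exact (hn.trans (Nat.le_mul_of_pos_left _ (by positivity))).trans Nat.lt_two_pow_self.le
    exact_mod_cast a
  have hB' : 3 * |(C : ℝ)| + 1 < (B : ℝ) ^ s :=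
    lt_of_mul_lt_mul_right ((hn₀.trans big).trans_lt h2) (by positivity)
  have s0 : 0 < s := (one_lt_zpow_iff_right₀ hb).1 (by linarith [abs_nonneg (C : ℝ)])
  obtain ⟨σ, rfl⟩ := Int.eq_ofNat_of_zero_le s0.le
  rw [zpow_natCast] at h1 h2 hB'
  obtain ⟨N, hN, e⟩ := k n
  have e' : (7 : ℝ) ^ (E₀ + 1) * N = 2 ^ (J + n * (3 * 7 ^ E₀)) * D + C := by exact_mod_cast e
  have e2 : (2 : ℝ) ^ (J + n * (3 * 7 ^ E₀)) * D = (2 ^ (3 * 7 ^ E₀)) ^ n * (2 ^ J * D) := by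
    rw [pow_add, ← pow_mul, Nat.mul_comm n]
    ring
  rw [hY, ← mul_assoc, ← mul_div_assoc, div_lt_iff₀ (by positivity)] at h1
  rw [hY, ← mul_assoc, ← mul_div_assoc, lt_div_iff₀ (by positivity)] at h2
  obtain ⟨f1, f2⟩ := fit (u := u) (one_le_pow₀ (by norm_num)) e'
    (by rw [e2]; exact h1) (by rw [e2]; exact h2) (by linarith)
  refine ⟨N, 0, σ, hN, by omega, ?_, ?_⟩
  · rw [pow_zero, one_mul]
    exact_mod_cast f1
  · rw [pow_zero, one_mul]
    exact_mod_cast f2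

/-- Long intervals of integers meeting the trajectory of `m`, with given leading digits. -/
theorem run (B m u Λ : ℕ) (hB : 2 ≤ B) (hm : 0 < m) : ∃ τ N : ℕ, B ^ τ * u ≤ N ∧
    N + Λ ≤ B ^ τ * (u + 1) ∧ ∀ z, z < Λ → ∃ k l : ℕ, g^[k] (N + z) = g^[l] m := by
  classical
  obtain ⟨d, hd⟩ := target m hm
  obtain ⟨L, ρ, hF⟩ := fam ((Finset.range (B + 1) ×ˢ Finset.range Λ).image
    fun f => (f.1, 0, (f.2 : ℤ)))
  obtain ⟨E₀, hE⟩ := reach L ρ d
  obtain ⟨N, l, σ, ⟨t, rfl, hN⟩, hl, h1, h2⟩ := place2 B (B ^ Λ * u) (7 * d + 4) E₀ hB (by omega)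
    (fun N => ∃ t, N = ρ + 2 ^ L * t ∧ Eqv N (7 * d + 4)) fun E k => by
      obtain ⟨J, C, k'⟩ := hE E k
      refine ⟨J, C, fun n => ?_⟩
      obtain ⟨t, a, b⟩ := k' n
      exact ⟨_, ⟨t, rfl, a⟩, by rw [b]; push_cast; ring⟩
  obtain ⟨N, hN'⟩ := Int.eq_ofNat_of_zero_le (le_trans (by positivity) h1)
  rw [hN'] at h1 h2
  have g1 : B ^ σ * (B ^ Λ * u) ≤ N := by exact_mod_cast h1
  have g2 : N < B ^ σ * (B ^ Λ * u + 1) := by exact_mod_cast h2
  refine ⟨σ + Λ, N, by rwa [pow_add, mul_assoc], ?_, fun z hz => ?_⟩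
  · have a1 := Nat.mul_le_mul_left (B ^ σ) (Nat.lt_pow_self (n := Λ) (show 1 < B by omega))
    have a2 := Nat.le_mul_of_pos_left Λ (Nat.pow_pos (n := σ) (show 0 < B by omega))
    rw [pow_add]
    nlinarith
  · have a := hF t (l, 0, (z : ℤ)) (Finset.mem_image.2 ⟨(l, z), by
      simp only [Finset.mem_product, Finset.mem_range]
      exact ⟨by omega, hz⟩, rfl⟩)
    simp only [pow_zero, mul_one] at a
    rw [hN', ← Nat.cast_add] at a
    obtain ⟨k, k', h⟩ := a.symm.trans (hN.trans hd.symm)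
    obtain ⟨c, hc⟩ := T_g k (N + z)
    obtain ⟨c', hc'⟩ := T_g k' m
    rw [hc, hc'] at h
    exact ⟨c, c', by exact_mod_cast h⟩

/-- `n` has an extension by exactly `r` digits in `S`. -/
def Acc (b : ℕ) (S : Set ℕ) (n r : ℕ) : Prop := ∃ z, z < b ^ r ∧ b ^ r * n + z ∈ S

theorem acc_ext {b : ℕ} {S : Set ℕ} {n s z r : ℕ} (hz : z < b ^ s)
    (h : Acc b S (b ^ s * n + z) r) : Acc b S n (r + s) := by
  obtain ⟨z', hz', hm⟩ := h
  refine ⟨b ^ r * z + z', ?_, ?_⟩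
  · have := Nat.mul_le_mul_left (b ^ r) (Nat.succ_le_of_lt hz)
    rw [Nat.mul_succ] at this
    rw [pow_add]
    omega
  · rwa [show b ^ (r + s) * n + (b ^ r * z + z') = b ^ r * (b ^ s * n + z) + z' by ring]

theorem cut {b : ℕ} (hb : 0 < b) (n r D : ℕ) {x : ℕ} (hx : x < b ^ (r + D)) :
    x / b ^ r < b ^ D ∧ x % b ^ r < b ^ r ∧
      b ^ r * (b ^ D * n + x / b ^ r) + x % b ^ r = b ^ (r + D) * n + x := by
  refine ⟨?_, Nat.mod_lt _ (Nat.pow_pos hb), ?_⟩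
  · rwa [Nat.div_lt_iff_lt_mul (Nat.pow_pos hb), ← pow_add, Nat.add_comm]
  · rw [Nat.mul_add, Nat.add_assoc, Nat.div_add_mod, pow_add, Nat.mul_assoc]

theorem dead {K : Type} [Finite K] (b : ℕ) (hb : 2 ≤ b) (S : Set ℕ) (st : ℕ → K)
    (hS : ∀ n n' : ℕ, st n = st n' → n ∈ S → n' ∈ S)
    (hstep : ∀ n n' d : ℕ, 0 < n → 0 < n' → st n = st n' → d < b →
      st (b * n + d) = st (b * n' + d))
    (H : ∀ P u Λ : ℕ, 0 < P → ∃ τ N : ℕ, (b ^ P) ^ τ * u ≤ N ∧ N + Λ ≤ (b ^ P) ^ τ * (u + 1) ∧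
      ∀ z, z < Λ → N + z ∉ S) :
    ∃ D r₀ : ℕ, 2 ≤ D ∧ ∀ n r, 0 < n → r₀ ≤ r → ∃ z, z < b ^ D ∧ ¬Acc b S (b ^ D * n + z) r := by
  have b0 : 0 < b := by omega
  have hx := Auto.ext b hb st hstep
  have pos : ∀ s n z : ℕ, 0 < n → 0 < b ^ s * n + z := fun s n z hn =>
    Nat.add_pos_left (Nat.mul_pos (pow_pos b0 s) hn) _
  have hA : ∀ n n' r : ℕ, 0 < n → 0 < n' → st n = st n' → Acc b S n r → Acc b S n' r := by
    rintro n n' r hn hn' h ⟨z, hz, hm⟩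
    exact ⟨z, hz, hS _ _ (hx r n n' z hn hn' h hz) hm⟩
  have sc : ∀ r r', (∀ n, 0 < n → Acc b S n r → Acc b S n r') →
      ∀ s n, 0 < n → Acc b S n (r + s) → Acc b S n (r' + s) := by
    rintro r r' h s n hn ⟨x, hx1, hx2⟩
    obtain ⟨a1, a2, a3⟩ := cut b0 n r s hx1
    exact acc_ext a1 (h _ (pos _ _ _ hn) ⟨_, a2, by rwa [a3]⟩)
  obtain ⟨r₀, P, P0, per⟩ : ∃ r₀ P, 0 < P ∧ ∀ n, 0 < n → Acc b S n (r₀ + P) → Acc b S n r₀ := by
    obtain ⟨r, r', ne, e⟩ := Finite.exists_ne_map_eq_of_infinite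
      fun r : ℕ => {k : K | ∃ n, 0 < n ∧ st n = k ∧ Acc b S n r}
    wlog lt : r < r' generalizing r r'
    · exact this r' r ne.symm e.symm (by omega)
    refine ⟨r, r' - r, by omega, fun n hn h => ?_⟩
    rw [Nat.add_sub_cancel' lt.le] at h
    obtain ⟨n', a1, a2, a3⟩ := (Set.ext_iff.1 e (st n)).2 ⟨n, hn, rfl, h⟩
    exact hA n' n r a1 hn a2 a3
  have per' : ∀ k n, 0 < n → Acc b S n (r₀ + k * P) → Acc b S n r₀ := by
    intro k
    induction k with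
    | zero => exact fun n _ h => by simpa using h
    | succ k ih =>
      intro n hn h
      rw [show r₀ + (k + 1) * P = r₀ + P + k * P by ring] at h
      exact ih n hn (sc _ _ per _ n hn h)
  have un : ∀ c : ℕ, ∃ R : ℕ, ∀ n, 0 < n → ∃ s, s ≤ R ∧ (s + r₀) % P = c % P ∧
      ∃ z, z < b ^ s ∧ ¬Acc b S (b ^ s * n + z) r₀ := by
    intro c
    obtain ⟨R, hR⟩ := Auto.unif st (fun n s => (s + r₀) % P = c % P ∧
      ∃ z, z < b ^ s ∧ ¬Acc b S (b ^ s * n + z) r₀) (by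
      rintro n n' s hn hn' h ⟨a, z, hz, hm⟩
      exact ⟨a, z, hz, fun h' => hm (hA _ _ _ (pos s n' z hn') (pos s n z hn)
        (hx s n n' z hn hn' h hz).symm h')⟩)
    refine ⟨R, fun n hn => hR n hn ?_⟩
    obtain ⟨τ, N, h1, h2, h3⟩ := H P (b ^ (c + r₀ * P) * n) (2 * b ^ r₀) P0
    obtain ⟨s, hs⟩ : ∃ s, P * τ + (c + r₀ * P) = s + r₀ :=
      ⟨P * τ + (c + r₀ * P) - r₀, by have := Nat.le_mul_of_pos_right r₀ P0; omega⟩
    have e1 : (b ^ P) ^ τ * (b ^ (c + r₀ * P) * n) = b ^ r₀ * (b ^ s * n) := by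
      rw [← pow_mul, ← mul_assoc, ← pow_add, hs]
      ring
    have e2 : (b ^ P) ^ τ ≤ b ^ r₀ * b ^ s := by
      rw [← pow_mul, ← pow_add]
      exact Nat.pow_le_pow_right b0 (by omega)
    rw [Nat.mul_add, e1] at h2
    rw [e1] at h1
    have q0 : 0 < b ^ r₀ := pow_pos b0 r₀
    have q1 := Nat.div_add_mod N (b ^ r₀)
    have q2 := Nat.mod_lt N q0
    have q3 : b ^ s * n ≤ N / b ^ r₀ := by rwa [Nat.le_div_iff_mul_le q0, Nat.mul_comm]
    obtain ⟨z, hz⟩ := Nat.exists_eq_add_of_le q3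
    rw [hz] at q1
    generalize N % b ^ r₀ = ρ at q1 q2
    refine ⟨s, ?_, z + 1, ?_, ?_⟩
    · rw [← hs, show P * τ + (c + r₀ * P) = c + P * (τ + r₀) by ring, Nat.add_mul_mod_self_left]
    · refine lt_of_mul_lt_mul_left (a := b ^ r₀) ?_ q0.le
      rw [Nat.mul_add] at q1 ⊢
      omega
    · rintro ⟨y, hy, hm⟩
      refine h3 (b ^ r₀ - ρ + y) (by omega) ?_
      rwa [show N + (b ^ r₀ - ρ + y) = b ^ r₀ * (b ^ s * n + (z + 1)) + y by
        rw [← Nat.add_assoc (b ^ s * n), Nat.mul_add]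
        omega]
  choose R hR using un
  refine ⟨(Finset.range P).sup R + 2, r₀, by omega, fun n r hn hr => ?_⟩
  obtain ⟨s, s1, s2, z, hz, h⟩ := hR ((r + ((Finset.range P).sup R + 2)) % P) n hn
  have s3 := s1.trans (Finset.le_sup (f := R) (Finset.mem_range.2 (Nat.mod_lt _ P0)))
  obtain ⟨t, ht⟩ := Nat.exists_eq_add_of_le (s3.trans (Nat.le_add_right _ 2))
  rw [ht] at s2 ⊢
  rw [Nat.mod_mod] at s2
  obtain ⟨k, hk⟩ := (Nat.modEq_iff_dvd' (by omega)).1 s2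
  refine ⟨b ^ t * z, ?_, fun a => h (per' k _ (pos _ _ _ hn) ?_)⟩
  · rw [pow_add, mul_comm (b ^ s)]
    exact Nat.mul_lt_mul_of_pos_left hz (pow_pos b0 t)
  · rw [show b ^ (s + t) * n + b ^ t * z = b ^ t * (b ^ s * n + z) + 0 by ring] at a
    have := acc_ext (pow_pos b0 t) a
    rwa [show r + t = r₀ + k * P by rw [Nat.mul_comm]; omega] at this

/-- Number of extensions by exactly `r` digits in `S`. -/
noncomputable def cn (b : ℕ) (S : Set ℕ) (n r : ℕ) : ℕ := {z | z < b ^ r ∧ b ^ r * n + z ∈ S}.ncard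

theorem cn_le (b : ℕ) (S : Set ℕ) (n r : ℕ) : cn b S n r ≤ b ^ r :=
  (Set.ncard_le_ncard (fun _ a => a.1) (Set.finite_Iio _)).trans (Set.ncard_Iio_nat _).le

theorem cn_add {b : ℕ} (hb : 0 < b) (S : Set ℕ) (n r D : ℕ) {w : ℕ} (hw : w < b ^ D) {M : ℝ}
    (h : ∀ z, z < b ^ D → z ≠ w → (cn b S (b ^ D * n + z) r : ℝ) ≤ M) :
    (cn b S n (r + D) : ℝ) ≤ cn b S (b ^ D * n + w) r + (b ^ D - 1) * M := by
  classical
  have e : ∀ n r, cn b S n r = ((Finset.range (b ^ r)).filter fun z => b ^ r * n + z ∈ S).card :=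
    fun n r => by
      rw [cn, ← Set.ncard_coe_finset]
      congr 1
      ext z
      simp
  have a : cn b S n (r + D) ≤ ∑ z ∈ Finset.range (b ^ D), cn b S (b ^ D * n + z) r := by
    simp only [e]
    refine le_trans (Finset.card_le_card (t := (Finset.range (b ^ D)).biUnion fun z =>
      ((Finset.range (b ^ r)).filter fun y => b ^ r * (b ^ D * n + z) + y ∈ S).image
        fun y => b ^ r * z + y) fun x hx => ?_)
      (Finset.card_biUnion_le.trans (Finset.sum_le_sum fun _ _ => Finset.card_image_le))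
    obtain ⟨x1, x2⟩ := Finset.mem_filter.1 hx
    obtain ⟨a1, a2, a3⟩ := cut hb n r D (Finset.mem_range.1 x1)
    exact Finset.mem_biUnion.2 ⟨_, Finset.mem_range.2 a1, Finset.mem_image.2
      ⟨_, Finset.mem_filter.2 ⟨Finset.mem_range.2 a2, by rwa [a3]⟩, Nat.div_add_mod _ _⟩⟩
  rw [← Finset.add_sum_erase _ _ (Finset.mem_range.2 hw)] at a
  have a1 : (cn b S n (r + D) : ℝ) ≤ cn b S (b ^ D * n + w) r +
      ∑ z ∈ (Finset.range (b ^ D)).erase w, (cn b S (b ^ D * n + z) r : ℝ) := by exact_mod_cast a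
  have a2 := Finset.sum_le_card_nsmul ((Finset.range (b ^ D)).erase w)
    (fun z => (cn b S (b ^ D * n + z) r : ℝ)) M fun z hz =>
      h z (Finset.mem_range.1 (Finset.mem_erase.1 hz).2) (Finset.mem_erase.1 hz).1
  rw [Finset.card_erase_of_mem (Finset.mem_range.2 hw), Finset.card_range, nsmul_eq_mul,
    Nat.cast_pred (pow_pos hb D), Nat.cast_pow] at a2
  linarith

theorem sparse {b D r₀ : ℕ} (hb : 2 ≤ b) (S : Set ℕ) (hD : 2 ≤ D)
    (h : ∀ n r, 0 < n → r₀ ≤ r → ∃ z, z < b ^ D ∧ ¬Acc b S (b ^ D * n + z) r) :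
    ∃ δ C : ℝ, 0 < δ ∧ ∀ X : ℕ, ({s | s < X ∧ s ∈ S}.ncard : ℝ) ≤ C * (X : ℝ) ^ (1 - δ) := by
  have b0 : 0 < b := by omega
  have b2 : (2 : ℝ) ≤ b := by exact_mod_cast hb
  have b4 : (4 : ℝ) ≤ (b : ℝ) ^ D := by
    have := (pow_le_pow_left₀ (by norm_num) b2 2).trans (pow_le_pow_right₀ (by linarith) hD)
    linarith
  obtain ⟨β, β0, hβ⟩ : ∃ β : ℝ, 0 ≤ β ∧ β ^ D = b ^ D - 1 :=
    ⟨_, Real.rpow_nonneg (by linarith) _, Real.rpow_inv_natCast_pow (by linarith) (by omega)⟩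
  have β1 : 1 < β := lt_of_pow_lt_pow_left₀ D β0 (by rw [hβ, one_pow]; linarith)
  have β2 : β < b := lt_of_pow_lt_pow_left₀ D (by linarith) (by rw [hβ]; linarith)
  have c1 : ∀ r n, 0 < n → (cn b S n r : ℝ) ≤ b ^ (r₀ + D) * β ^ r := by
    intro r
    induction r using Nat.strong_induction_on with
    | _ r ih =>
      intro n hn
      rcases Nat.lt_or_ge r (r₀ + D) with a | a
      · have a1 : (cn b S n r : ℝ) ≤ b ^ (r₀ + D) := by
          exact_mod_cast (cn_le b S n r).trans (Nat.pow_le_pow_right b0 a.le)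
        exact a1.trans (le_mul_of_one_le_right (by positivity) (one_le_pow₀ β1.le))
      · obtain ⟨r, rfl⟩ := Nat.exists_eq_add_of_le' (le_trans (Nat.le_add_left D r₀) a)
        obtain ⟨w, hw, hd⟩ := h n r hn (by omega)
        have a1 := cn_add b0 S n r D hw fun z _ _ => ih r (by omega) _
          (Nat.add_pos_left (Nat.mul_pos (pow_pos b0 D) hn) z)
        have a2 : cn b S (b ^ D * n + w) r = 0 := by
          have e : {z | z < b ^ r ∧ b ^ r * (b ^ D * n + w) + z ∈ S} = ∅ :=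
            Set.eq_empty_of_forall_notMem fun z hz => hd ⟨z, hz⟩
          rw [cn, e, Set.ncard_empty]
        rw [a2, ← hβ] at a1
        rw [pow_add β]
        push_cast at a1
        linarith
  obtain ⟨C, hC⟩ : ∃ C : ℝ, C = 1 + (b - 1) * b ^ (r₀ + D) / (β - 1) := ⟨_, rfl⟩
  have C0 : 0 ≤ ((b : ℝ) - 1) * b ^ (r₀ + D) / (β - 1) :=
    div_nonneg (mul_nonneg (by linarith) (by positivity)) (by linarith)
  have C1 : C * (β - 1) = β - 1 + (b - 1) * b ^ (r₀ + D) := by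
    rw [hC, add_mul, div_mul_cancel₀ _ (by linarith), one_mul]
  have c2 : ∀ r, (cn b S 0 r : ℝ) ≤ C * β ^ r := by
    intro r
    induction r with
    | zero =>
      have : (cn b S 0 0 : ℝ) ≤ 1 := by exact_mod_cast cn_le b S 0 0
      rw [pow_zero]
      linarith
    | succ r ih =>
      have a1 := cn_add b0 S 0 r 1 (w := 0) (pow_pos b0 1) fun z _ a => c1 r _
        (show 0 < b ^ 1 * 0 + z by omega)
      simp only [mul_zero, add_zero, pow_one] at a1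
      have p : 0 < β ^ r := by positivity
      rw [pow_succ]
      nlinarith
  have l0 : 0 < Real.logb b β := Real.logb_pos (by linarith) β1
  refine ⟨1 - Real.logb b β, C * β, sub_pos.2 ?_, fun X => ?_⟩
  · rw [Real.logb_lt_iff_lt_rpow (by linarith) (by linarith), Real.rpow_one]
    exact β2
  rw [sub_sub_cancel]
  rcases Nat.eq_zero_or_pos X with rfl | X0
  · simp [Real.zero_rpow l0.ne']
  have a1 : {s | s < X ∧ s ∈ S}.ncard ≤ cn b S 0 (Nat.log b X + 1) :=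
    Set.ncard_le_ncard (fun s a => ⟨a.1.trans (Nat.lt_pow_succ_log_self hb X), by simpa using a.2⟩)
      ((Set.finite_Iio _).subset fun _ a => a.1)
  have a2 : β ^ Nat.log b X ≤ (X : ℝ) ^ Real.logb b β := by
    have a3 : (b : ℝ) ^ Nat.log b X ≤ X := by exact_mod_cast Nat.pow_log_le_self b X0.ne'
    refine le_trans (le_of_eq ?_) (Real.rpow_le_rpow (by positivity) a3 l0.le)
    rw [← Real.rpow_natCast (b : ℝ), ← Real.rpow_mul (by linarith), mul_comm,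
      Real.rpow_mul (by linarith), Real.rpow_logb (by linarith) (by linarith) (by linarith),
      Real.rpow_natCast]
  refine le_trans (by exact_mod_cast a1) ((c2 _).trans ?_)
  rw [pow_succ', mul_assoc]
  exact mul_le_mul_of_nonneg_left (mul_le_mul_of_nonneg_left a2 β0) (by linarith)

theorem suff (b : ℕ) (hb : 2 ≤ b) (L : Language ℕ) (hL : L.IsRegular) (m : ℕ) (hm : 0 < m)
    (A : ℕ) (hS : ∀ s : ℕ, A < s → Nat.digits b s ∈ L → ∀ k l : ℕ, g^[k] s ≠ g^[l] m) :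
    ∃ δ C : ℝ, 0 < δ ∧ ∀ X : ℕ,
      ({s | s < X ∧ Nat.digits b s ∈ L}.ncard : ℝ) ≤ C * (X : ℝ) ^ (1 - δ) := by
  obtain ⟨Q, hQ, M, rfl⟩ := hL
  obtain ⟨D, r₀, hD, h⟩ := dead b hb {s | Nat.digits b s ∈ M.accepts}
    (fun n => ({q | M.evalFrom q (Nat.digits b n) ∈ M.accept} : Set Q))
    (fun n n' h hn => (Set.ext_iff.1 h M.start).1 hn)
    (by
      intro n n' d hn hn' h hd
      ext q
      have e : ∀ m : ℕ, 0 < m → Nat.digits b (b * m + d) = d :: Nat.digits b m := by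
        intro m hm
        rw [add_comm]
        exact Nat.digits_add b (by omega) d m hd (Or.inr hm.ne')
      simp only [Set.mem_ofPred_eq, e n hn, e n' hn', DFA.evalFrom_cons]
      exact Set.ext_iff.1 h (M.step q d))
    (fun P u Λ P0 => by
      have B2 := hb.trans (Nat.le_self_pow P0.ne' b)
      obtain ⟨τ, N, h1, h2, h3⟩ := run (b ^ P) m (b ^ P * u + 1) (Λ + A + 1) B2 hm
      have a1 := Nat.mul_le_mul_left ((b ^ P) ^ τ) B2
      rw [Nat.mul_add, ← Nat.mul_assoc] at h1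
      rw [Nat.add_assoc _ 1, Nat.mul_add, ← Nat.mul_assoc] at h2
      refine ⟨τ + 1, N, ?_, ?_, fun z hz a => ?_⟩
      · rw [pow_succ]
        omega
      · rw [pow_succ, Nat.mul_add]
        omega
      · obtain ⟨k, l, e⟩ := h3 z (by omega)
        exact hS _ (by omega) a k l e)
  exact sparse hb _ hD h

end Pool.Agent.MP_574b9b_nt.AB
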