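import Pool.Agent.MP_574b9b_nt.ab.Freq

/-! Uniform bound for the visits of a repetition-free piece of trajectory to a thin set. -/

set_option autoImplicit false

namespace Pool.Agent.MP_574b9b_nt.AB

theorem drift' {n k : ℕ} {X : ℝ} (X0 : 0 < X) (t : ℕ)
    (hX : ∀ s, k ≤ s → s ≤ k + t → X ≤ (g^[s] n : ℕ)) :
    ∃ δ : ℝ, 0 ≤ δ ∧ δ ≤ ((oc n (k + t) : ℝ) - oc n k) / X ∧
      Real.log (g^[k + t] n : ℕ) - Real.log (g^[k] n : ℕ) = ((oc n (k + t) : ℝ) - oc n k) *
        Real.log 7 - ((ec n (k + t) : ℝ) - ec n k) * Real.log 2 + δ := by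
  induction t with
  | zero => exact ⟨0, le_rfl, by simp, by simp⟩
  | succ t ih =>
    obtain ⟨δ, d0, d1, d2⟩ := ih fun s a b => hX s a (by omega)
    rw [← Nat.add_assoc]
    have x1 := hX (k + t) (by omega) (by omega)
    have x2 := hX (k + t + 1) (by omega) (by omega)
    rcases step n (k + t) with ⟨_, h1, h2, h3⟩ | ⟨_, h1, h2, h3⟩
    · rw [h1, h2, h3]
      generalize ((g^[k + t] n : ℕ)) = y at *
      have y0 : (0 : ℝ) < y := X0.trans_le x1
      have e : ((7 * y + 1 : ℕ) : ℝ) = 7 * y * (1 + 1 / (7 * y)) := by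
        push_cast
        field_simp
      have p : (0 : ℝ) < 1 / (7 * y) := by positivity
      have b1 := Real.log_le_sub_one_of_pos (show (0 : ℝ) < 1 + 1 / (7 * y) by positivity)
      have b2 : 1 / (7 * (y : ℝ)) ≤ 1 / X := one_div_le_one_div_of_le X0 (by linarith)
      refine ⟨δ + Real.log (1 + 1 / (7 * y)), add_nonneg d0 (Real.log_nonneg (by linarith)), ?_, ?_⟩
      · push_cast
        rw [add_sub_right_comm, add_div]
        linarith
      · rw [e, Real.log_mul (by positivity) (by positivity),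
          Real.log_mul (by positivity) (by positivity)]
        push_cast
        linarith
    · rw [h2, h3]
      rw [h1] at d2
      generalize ((g^[k + t + 1] n : ℕ)) = y at *
      have y0 : (0 : ℝ) < y := X0.trans_le x2
      refine ⟨δ, d0, d1, ?_⟩
      rw [Nat.cast_mul, Real.log_mul (by positivity) (by positivity)] at d2
      push_cast at d2 ⊢
      linarith

/-- The weighted step count. -/
def nu (i j n k : ℕ) : ℕ := i * oc n k + j * ec n k

theorem nu_mono (i j n : ℕ) {k l : ℕ} (h : k ≤ l) : nu i j n k ≤ nu i j n l :=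
  Nat.add_le_add (Nat.mul_le_mul_left _ (Nat.count_monotone _ h))
    (Nat.mul_le_mul_left _ (Nat.count_monotone _ h))

theorem oc_lt {n k t : ℕ} (t0 : 0 < t) (ok : Odd (g^[k] n)) : oc n k + 1 ≤ oc n (k + t) := by
  have : oc n (k + 1) ≤ oc n (k + t) := Nat.count_monotone _ (by omega)
  rcases step n k with ⟨_, _, h2, _⟩ | ⟨h1, _⟩
  exacts [by omega, absurd ok h1]

theorem nu_lt {i j n k l : ℕ} (hij : 0 < i + j) (kl : k < l) (ok : Odd (g^[k] n))
    (ol : Odd (g^[l] n)) : nu i j n k < nu i j n l := by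
  obtain ⟨t, rfl⟩ := Nat.exists_eq_add_of_le kl.le
  have a1 := oc_lt (show 0 < t by omega) ok
  have a2 := (alt n k t).2 ol
  have b1 := Nat.mul_le_mul_left i a1
  have b2 := Nat.mul_le_mul_left j (show ec n k + 1 ≤ ec n (k + t) by omega)
  unfold nu
  rw [Nat.mul_add] at b1 b2
  omega

theorem apart {i j W n k l v r z r' z' : ℕ} (hij : 0 < i + j) (W1 : 0 < W)
    (hW : ∀ A H : ℤ, 0 < A → A < W → 1 / (10 * (W : ℝ)) ≤ |A * Real.log 7 - H * Real.log 2|)
    (kl : k < l) (ok : Odd (g^[k] n)) (ol : Odd (g^[l] n))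
    (e1 : nu i j n k / W = nu i j n l / W) (hX : ∀ s, k ≤ s → s ≤ l → 40 * W * W ≤ g^[s] n)
    (hv : 40 * W ≤ v) (u2 : z < (2 ^ i * 7 ^ j) ^ r) (u3 : (2 ^ i * 7 ^ j) ^ r * v + z = g^[k] n)
    (u4 : z' < (2 ^ i * 7 ^ j) ^ r') (u5 : (2 ^ i * 7 ^ j) ^ r' * v + z' = g^[l] n) : False := by
  obtain ⟨t, rfl⟩ := Nat.exists_eq_add_of_le kl.le
  have W2 : (0 : ℝ) < W := by exact_mod_cast W1
  have a1 := oc_lt (show 0 < t by omega) ok
  have a2 := (alt n k t).2 ol
  have a3 : nu i j n (k + t) < nu i j n k + W := by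
    have := Nat.div_add_mod (nu i j n k) W
    have := Nat.div_add_mod (nu i j n (k + t)) W
    have := Nat.mod_lt (nu i j n (k + t)) W1
    rw [← e1] at *
    omega
  unfold nu at a3
  have a4 := pair (a := (oc n (k + t) : ℤ) - oc n k) (h := (ec n (k + t) : ℤ) - ec n k)
    (c := (r' : ℤ) - r) hij (by omega) (by omega) (by zify at a3; linarith) hW
  have a5 : ((oc n (k + t) : ℝ) - oc n k) ≤ W := by
    have b2 : (oc n (k + t) : ℤ) - oc n k ≤ W := by
      zify at a1 a2 a3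
      have : (1 : ℤ) ≤ i + j := by omega
      have : (0 : ℤ) ≤ j := by omega
      nlinarith
    exact_mod_cast b2
  obtain ⟨δ, d0, d1, d2⟩ := drift' (n := n) (k := k) (X := 40 * W * W) (by positivity) t
    (fun s a b => by exact_mod_cast hX s a b)
  obtain ⟨θ, t0, t1, t2⟩ := blog (by positivity) (show 0 < v by omega) u2
  obtain ⟨θ', t3, t4, t5⟩ := blog (by positivity) (show 0 < v by omega) u4
  rw [u3] at t2
  rw [u5] at t5
  have c1 : 1 / (v : ℝ) ≤ 1 / (40 * W) := one_div_le_one_div_of_le (by positivity)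
    (by exact_mod_cast hv)
  have c2 : δ ≤ 1 / (40 * W) := by
    refine d1.trans ?_
    rw [div_le_div_iff₀ (by positivity) (by positivity)]
    nlinarith
  have c3 : 1 / (10 * (W : ℝ)) = 4 * (1 / (40 * W)) := by
    field_simp
    norm_num
  have c4 : (0 : ℝ) < 1 / (40 * W) := by positivity
  rw [c3] at a4
  push_cast at a4 t2 t5
  rcases le_abs.1 a4 with a | a <;> linarith

theorem split {i j W p n K : ℕ} (hij : 0 < i + j) (W1 : 0 < W)
    (hW : ∀ A H : ℤ, 0 < A → A < W → 1 / (10 * (W : ℝ)) ≤ |A * Real.log 7 - H * Real.log 2|)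
    (b1 : 1 < 2 ^ i * 7 ^ j) (p2 : 40 * W ≤ (2 ^ i * 7 ^ j) ^ p) (S : Set ℕ)
    (inj : ∀ k l, k < K → l < K → g^[k] n = g^[l] n → k = l) :
    Set.ncard {k | k < K ∧ Odd (g^[k] n) ∧ g^[k] n ∈ S} ≤
      ((2 ^ i * 7 ^ j) ^ p + 40 * W * W) * W +
        (nu i j n K / W + 1) * (Live (2 ^ i * 7 ^ j) S p).ncard := by
  obtain ⟨X, hX⟩ : ∃ X, X = (2 ^ i * 7 ^ j) ^ p + 40 * W * W := ⟨_, rfl⟩
  rw [← hX]
  have fin : (Live (2 ^ i * 7 ^ j) S p).Finite := (Set.finite_Iio _).subset fun _ a => a.2.1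
  have ch : ∀ k, ∃ v r z : ℕ, X ≤ g^[k] n → (2 ^ i * 7 ^ j) ^ p ≤ v ∧
      v < (2 ^ i * 7 ^ j) ^ (p + 1) ∧ z < (2 ^ i * 7 ^ j) ^ r ∧
      (2 ^ i * 7 ^ j) ^ r * v + z = g^[k] n := fun k => by
    by_cases c : X ≤ g^[k] n
    · obtain ⟨v, r, z, a⟩ := block (p := p) b1 (le_trans (by omega) c)
      exact ⟨v, r, z, fun _ => a⟩
    · exact ⟨0, 0, 0, fun a => absurd a c⟩
  choose v r z hv using ch
  have ch' : ∀ w, ∃ s, (∃ s, s < K ∧ nu i j n s / W = w ∧ g^[s] n < X) →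
      s < K ∧ nu i j n s / W = w ∧ g^[s] n < X := fun w => by
    by_cases c : ∃ s, s < K ∧ nu i j n s / W = w ∧ g^[s] n < X
    · obtain ⟨s, a⟩ := c
      exact ⟨s, fun _ => a⟩
    · exact ⟨0, fun a => absurd a c⟩
  choose f hf using ch'
  have s1 : Set.ncard {k | k < K ∧ Odd (g^[k] n) ∧
      ∃ s, s < K ∧ nu i j n s / W = nu i j n k / W ∧ g^[s] n < X} ≤
      (Set.Iio X ×ˢ Set.Iio W).ncard := by
    refine Set.ncard_le_ncard_of_injOn (fun k => (g^[f (nu i j n k / W)] n, nu i j n k % W)) ?_ ?_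
      ((Set.finite_Iio _).prod (Set.finite_Iio _))
    · rintro k ⟨-, -, c⟩
      exact ⟨(hf _ c).2.2, Nat.mod_lt _ W1⟩
    · rintro k ⟨-, o, c⟩ l ⟨-, o', c'⟩ e
      obtain ⟨e1, e2⟩ := Prod.mk.inj e
      have e3 := inj _ _ (hf _ c).1 (hf _ c').1 e1
      have e4 : nu i j n k / W = nu i j n l / W := by rw [← (hf _ c).2.1, e3, (hf _ c').2.1]
      have e5 : nu i j n k = nu i j n l := by
        rw [← Nat.div_add_mod (nu i j n k) W, e4, e2, Nat.div_add_mod]
      rcases Nat.lt_trichotomy k l with a | a | a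
      exacts [absurd e5 (nu_lt hij a o o').ne, a, absurd e5 (nu_lt hij a o' o).ne']
  have s2 : Set.ncard {k | k < K ∧ Odd (g^[k] n) ∧ g^[k] n ∈ S ∧
      ∀ s, s < K → nu i j n s / W = nu i j n k / W → X ≤ g^[s] n} ≤
      (Set.Iio (nu i j n K / W + 1) ×ˢ Live (2 ^ i * 7 ^ j) S p).ncard := by
    have key : ∀ k l, k < l → l < K → Odd (g^[k] n) → Odd (g^[l] n) →
        (∀ s, s < K → nu i j n s / W = nu i j n k / W → X ≤ g^[s] n) →
        nu i j n k / W = nu i j n l / W → v k = v l → False := by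
      intro k l kl lK o o' c e1 e2
      obtain ⟨u1, -, u2, u3⟩ := hv k (c k (by omega) rfl)
      obtain ⟨-, -, u4, u5⟩ := hv l (c l lK e1.symm)
      rw [← e2] at u5
      refine apart hij W1 hW kl o o' e1 (fun s a b => le_trans (by omega) (c s (by omega) ?_))
        (p2.trans u1) u2 u3 u4 u5
      exact le_antisymm (e1 ▸ Nat.div_le_div_right (nu_mono i j n b))
        (Nat.div_le_div_right (nu_mono i j n a))
    refine Set.ncard_le_ncard_of_injOn (fun k => (nu i j n k / W, v k)) ?_ ?_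
      ((Set.finite_Iio _).prod fin)
    · rintro k ⟨kK, -, m, c⟩
      obtain ⟨u1, u2, u3, u4⟩ := hv k (c k kK rfl)
      exact ⟨Nat.lt_succ_of_le (Nat.div_le_div_right (nu_mono i j n kK.le)), u1, u2, r k, z k, u3,
        by rw [u4]; exact m⟩
    · rintro k ⟨kK, o, -, c⟩ l ⟨lK, o', -, c'⟩ e
      obtain ⟨e1, e2⟩ := Prod.mk.inj e
      rcases Nat.lt_trichotomy k l with a | a | a
      exacts [(key k l a lK o o' c e1 e2).elim, a, (key l k a kK o' o c' e1.symm e2.symm).elim]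
  rw [Set.ncard_prod, Set.ncard_Iio_nat] at s1 s2
  rw [Set.ncard_Iio_nat] at s1
  refine le_trans (Set.ncard_le_ncard (fun k a => ?_)
    (((Set.finite_Iio K).subset fun _ a => a.1).union ((Set.finite_Iio K).subset fun _ a => a.1)))
    ((Set.ncard_union_le _ _).trans (Nat.add_le_add s1 s2))
  by_cases c : ∃ s, s < K ∧ nu i j n s / W = nu i j n k / W ∧ g^[s] n < X
  · exact Or.inl ⟨a.1, a.2.1, c⟩
  · exact Or.inr ⟨a.1, a.2.1, a.2.2, fun s b e => not_lt.1 fun d => c ⟨s, b, e, d⟩⟩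

theorem unif {i j : ℕ} (hij : 0 < i + j) {S : Set ℕ} (hS : Thin (2 ^ i * 7 ^ j) S) {ε : ℝ}
    (ε0 : 0 < ε) : ∃ C : ℝ, ∀ n K : ℕ, (∀ k l, k < K → l < K → g^[k] n = g^[l] n → k = l) →
      (Set.ncard {k | k < K ∧ Odd (g^[k] n) ∧ g^[k] n ∈ S} : ℝ) ≤ ε * K + C := by
  have b1 : 1 < 2 ^ i * 7 ^ j := by
    have := Nat.lt_two_pow_self (n := i + j)
    have := Nat.mul_le_mul_left (2 ^ i) (Nat.pow_le_pow_left (show 2 ≤ 7 by norm_num) j)
    rw [← pow_add] at this
    omega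
  have sp := fun W p n K a b c => split (W := W) (p := p) (n := n) (K := K) hij a b b1 c S
  generalize 2 ^ i * 7 ^ j = b at hS b1 sp
  have b0 : (0 : ℝ) < b := by exact_mod_cast b1.le
  obtain ⟨η, hη⟩ : ∃ η : ℝ, η = ε / (i + j + 1) := ⟨_, rfl⟩
  have η0 : 0 < η := by rw [hη]; positivity
  obtain ⟨p₀, hp⟩ := hS (η / (40 * b)) (by positivity)
  obtain ⟨W, W0, hW⟩ := sep (b ^ p₀)
  have W1 : 0 < W := (Nat.pow_pos b1.le).trans_le W0
  have W2 : (0 : ℝ) < W := by exact_mod_cast W1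
  obtain ⟨p, p1, p2, p3⟩ : ∃ p, p₀ ≤ p ∧ 40 * W < b ^ p ∧ b ^ p ≤ 40 * W * b :=
    ⟨Nat.log b (40 * W) + 1, (Nat.le_log_of_pow_le b1 (by omega)).trans (Nat.le_succ _),
      Nat.lt_pow_succ_log_self b1 _,
      Nat.mul_le_mul_right b (Nat.pow_log_le_self b (by omega))⟩
  have hV : ((Live b S p).ncard : ℝ) ≤ η * W := by
    refine (hp p p1).trans ?_
    have : (b : ℝ) ^ p ≤ 40 * W * b := by exact_mod_cast p3
    rw [div_mul_eq_mul_div, div_le_iff₀ (by positivity)]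
    nlinarith
  refine ⟨((b ^ p + 40 * W * W) * W : ℕ) + η * W, fun n K inj => ?_⟩
  have s4 : (nu i j n K / W + 1) * W ≤ (i + j + 1) * K + W := by
    have := Nat.div_mul_le_self (nu i j n K) W
    have a := (total n K).1
    have := Nat.mul_le_mul_left i (show oc n K ≤ K by omega)
    have := Nat.mul_le_mul_left j (show ec n K ≤ K by omega)
    unfold nu at *
    nlinarith
  have s5 : ((nu i j n K / W + 1 : ℕ) : ℝ) * W ≤ (i + j + 1) * K + W := by exact_mod_cast s4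
  have s6 : (Set.ncard {k | k < K ∧ Odd (g^[k] n) ∧ g^[k] n ∈ S} : ℝ) ≤
      ((b ^ p + 40 * W * W) * W : ℕ) + ((nu i j n K / W + 1 : ℕ) : ℝ) * (Live b S p).ncard := by
    exact_mod_cast sp W p n K W1 hW p2.le inj
  have s7 : ε = η * (i + j + 1) := by
    rw [hη]
    field_simp
  have s8 := mul_le_mul_of_nonneg_left hV (Nat.cast_nonneg (α := ℝ) (nu i j n K / W + 1))
  have s9 := mul_le_mul_of_nonneg_left s5 η0.le
  rw [s7]
  linarith

end Pool.Agent.MP_574b9b_nt.AB
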